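import Pool.Agent.Helper20.FG.Pos

/-!
# The equivalences at the idempotents
-/

open Topology Filter

namespace Pool.Agent.Helper20.FA

universe u v

attribute [local instance] IsFrechet.tag IsFrechet.csm IsFrechet.lcs

theorem injective_hasInj {A : Type u} [NonUnitalRing A] [Module ℂ A] [TopologicalSpace A]
    {J : FMod A} (hJ : Injective J) : HasInjectiveCoresolution J := by
  let d : ℕ → (J.X →L[ℂ] J.X) := fun n => if Even n then 0 else ContinuousLinearMap.id ℂ J.X
  have hd0 : ∀ n, Even n → d n = 0 := fun n hn => if_pos hn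
  have hd1 : ∀ n, ¬ Even n → d n = ContinuousLinearMap.id ℂ J.X := fun n hn => if_neg hn
  refine ⟨fun _ => J, fun _ => hJ, ContinuousLinearMap.id ℂ J.X, d, ?_, ?_, ?_, ?_,
    ContinuousLinearMap.id ℂ J.X, fun _ => ContinuousLinearMap.id ℂ J.X, ?_, ?_, ?_⟩
  · intro a x
    rfl
  · intro n a x
    by_cases hn : Even n
    · show d n (J.act a x) = J.act a (d n x)
      rw [hd0 n hn]
      exact (map_zero (J.act a)).symm
    · show d n (J.act a x) = J.act a (d n x)
      rw [hd1 n hn]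
      rfl
  · intro x
    show d 0 x = 0
    rw [hd0 0 (by decide)]
    rfl
  · intro n x
    by_cases hn : Even n
    · show d (n + 1) (d n x) = 0
      rw [hd0 n hn]
      exact map_zero (d (n + 1))
    · show d (n + 1) (d n x) = 0
      rw [hd0 (n + 1) (Nat.even_add_one.2 hn)]
      rfl
  · intro x
    rfl
  · intro y
    show y + d 0 y = y
    rw [hd0 0 (by decide)]
    exact add_zero y
  · intro n y
    show d n y + d (n + 1) y = y
    by_cases hn : Even n
    · rw [hd0 n hn, hd1 (n + 1) (by rw [Nat.even_add_one, not_not]; exact hn)]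
      exact zero_add y
    · rw [hd1 n hn, hd0 (n + 1) (Nat.even_add_one.2 hn)]
      exact add_zero y

variable {A : Type u} [NonUnitalRing A] [Module ℂ A] [IsScalarTower ℂ A A] [SMulCommClass ℂ A A]
  [TopologicalSpace A] [IsFrechet A] [ContinuousMul A]

/-- The module `L(f A_+, X)` is injective. -/
theorem injective_CofR {f : ℂ × A} (hff : mulP f f = f) (hn : Normable (fixP f)) (X : FMod A) :
    Injective (CofR (fixR f hn) X) := by
  intro Y φ hφ ⟨ψ0, hψ0⟩
  let ψ0' : Y.X →L[ℂ] (fixP f →L[ℂ] X.X) := ψ0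
  let θ : Y.X →L[ℂ] X.X :=
    ({ toFun := fun j => j ⟨f, hff⟩
       map_add' := fun _ _ => rfl
       map_smul' := fun _ _ => rfl
       cont := continuous_eval_const _ } : (fixP f →L[ℂ] X.X) →L[ℂ] X.X).comp ψ0'
  let ψ : Y.X →L[ℂ] (fixP f →L[ℂ] X.X) :=
    (ContinuousLinearMap.postcomp (fixP f) θ).comp (etaV f Y)
  have hψ : ∀ (y : Y.X) (z : fixP f), ψ y z = θ (Y.actP z.1 y) := fun y z => rfl
  have hφP : ∀ (w : ℂ × A) (j : (CofR (fixR f hn) X).X),
      φ ((CofR (fixR f hn) X).actP w j) = Y.actP w (φ j) := by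
    intro w j
    rw [FMod.actP_def, FMod.actP_def, map_add, map_smul, hφ]
  refine ⟨ψ, fun a y => ?_, fun j => ?_⟩
  · refine ContinuousLinearMap.ext fun z => ?_
    show θ (Y.actP z.1 (Y.act a y)) = θ (Y.actP (mulP z.1 (0, a)) y)
    rw [Y.actP_mulP, ← act_eq_actP]
  · let g : (CofR (fixR f hn) X).X → (fixP f →L[ℂ] X.X) := fun j => j
    show ψ (φ j) = g j
    refine ContinuousLinearMap.ext fun z => ?_
    rw [hψ, ← hφP]
    have h1 : θ (φ ((CofR (fixR f hn) X).actP z.1 j)) =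
        g ((CofR (fixR f hn) X).actP z.1 j) ⟨f, hff⟩ := by
      show g (ψ0 (φ ((CofR (fixR f hn) X).actP z.1 j))) ⟨f, hff⟩ = _
      rw [hψ0]
    have h2 : g ((CofR (fixR f hn) X).actP z.1 j) ⟨f, hff⟩ =
        z.1.1 • g j ⟨f, hff⟩ + g j ⟨mulP f (0, z.1.2), mulP_mem_fixP hff _⟩ := rfl
    rw [h1, h2, ← map_smul, ← map_add]
    congr 1
    refine Subtype.ext ?_
    show z.1.1 • f + mulP f (0, z.1.2) = z.1
    have h3 : z.1.1 • f + mulP f (0, z.1.2) = mulP f z.1 := by
      rw [mulP_def, mulP_def]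
      refine Prod.ext ?_ ?_
      · simp [mul_comm]
      · simp
        abel
    rw [h3]
    exact z.2

section

variable {f : ℂ × A} {χ : A →L[ℂ] ℂ} {R : Submodule ℂ A}

/-- The value of the character at the idempotent is not zero. -/
theorem chi_ne_zero (hff : mulP f f = f) (hf0 : f ≠ 0)
    (hfR : ∀ a : A, ∃ r ∈ R, mulP f (0, a) - χ a • f = (0, r))
    (hpro : ∀ U ∈ 𝓝 (0 : A), ∃ n : ℕ, ∀ l : List A, l.length = n → (∀ r ∈ l, r ∈ R) →
      ∀ c ∈ R, l.foldr (· * ·) c ∈ U) : f.1 + χ f.2 ≠ 0 := by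
  intro h0
  obtain ⟨r, hr, hrf⟩ := hfR f.2
  have h1 : mulP f f = f.1 • f + mulP f (0, f.2) := by
    rw [mulP_def, mulP_def]
    refine Prod.ext ?_ ?_
    · simp
    · simp
      abel
  have h2 : f = (0, r) := by
    rw [← hrf]
    calc f = mulP f f := hff.symm
      _ = f.1 • f + mulP f (0, f.2) := h1
      _ = (f.1 + χ f.2) • f + (mulP f (0, f.2) - χ f.2 • f) := by
        rw [add_smul]
        abel
      _ = mulP f (0, f.2) - χ f.2 • f := by rw [h0, zero_smul, zero_add]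
  have h3 : r * r = r := by
    have h4 := hff
    rw [h2, mulP_def] at h4
    have h5 := congrArg Prod.snd h4
    simpa using h5
  have h6 : ∀ n : ℕ, (List.replicate n r).foldr (· * ·) r = r := by
    intro n
    induction n with
    | zero => rfl
    | succ n ih => rw [List.replicate_succ, List.foldr_cons, ih, h3]
  have hA : IsFrechet A := inferInstance
  have := hA.metr
  have h7 : r = 0 := by
    by_contra h8
    have h9 : ({r}ᶜ : Set A) ∈ 𝓝 (0 : A) :=
      isOpen_compl_singleton.mem_nhds (by simpa using Ne.symm h8)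
    obtain ⟨n, hn⟩ := hpro _ h9
    have h10 := hn (List.replicate n r) (List.length_replicate ..) (fun s hs => by
      rw [List.eq_of_mem_replicate hs]
      exact hr) r hr
    rw [h6] at h10
    exact h10 rfl
  exact hf0 (by rw [h2, h7]; rfl)

/-- If `f A_+` is normable then some module with an eigenvector has an injective
coresolution. -/
theorem exists_of_normable (hff : mulP f f = f) (hf0 : f ≠ 0)
    (hχ : ∀ a b, χ (a * b) = χ a * χ b)
    (hfR : ∀ a : A, ∃ r ∈ R, mulP f (0, a) - χ a • f = (0, r))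
    (hpro : ∀ U ∈ 𝓝 (0 : A), ∃ n : ℕ, ∀ l : List A, l.length = n → (∀ r ∈ l, r ∈ R) →
      ∀ c ∈ R, l.foldr (· * ·) c ∈ U) (hn : Normable (fixP f)) :
    ∃ X : FMod A, X.HasKilled χ ∧ HasCores X := by
  obtain ⟨X, x, hx, -⟩ := exists_chiM χ hχ
  let χP : (ℂ × A) →L[ℂ] ℂ :=
    ContinuousLinearMap.fst ℂ ℂ A + χ.comp (ContinuousLinearMap.snd ℂ ℂ A)
  have hχP : ∀ z, χP z = z.1 + χ z.2 := fun z => rfl
  let y : fixP f →L[ℂ] X.X := (χP.comp (fixP f).subtypeL).smulRight x
  have hy : ∀ z : fixP f, y z = χP z.1 • x := fun z => rfl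
  refine ⟨CofR (fixR f hn) X, ⟨1, y, ?_, fun l hl => ?_⟩,
    (hasCores_iff _).2 (injective_hasInj (injective_CofR hff hn X))⟩
  · intro h1
    have h2 : y ⟨f, hff⟩ = 0 := by
      have h3 : y = 0 := h1
      rw [h3]
      rfl
    rw [hy] at h2
    rcases smul_eq_zero.1 h2 with h3 | h3
    · exact chi_ne_zero hff hf0 hfR hpro h3
    · exact hx h3
  · obtain ⟨a, rfl⟩ := List.length_eq_one_iff.1 hl
    have h1 : actR (fixR f hn) X.X a y = χ a • y := by
      refine ContinuousLinearMap.ext fun z => ?_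
      show χP (mulP z.1 (0, a)) • x = χ a • χP z.1 • x
      rw [smul_smul]
      congr 1
      rw [hχP, hχP, mulP_def]
      simp only [mul_zero, zero_smul, add_zero, zero_add, map_add, map_smul, hχ, smul_eq_mul]
      ring
    exact sub_eq_zero.2 h1

/-- The equivalence at an idempotent. -/
theorem iff_normable (hff : mulP f f = f) (hf0 : f ≠ 0)
    (hχ : ∀ a b, χ (a * b) = χ a * χ b)
    (hR : ∀ a : A, ∀ r ∈ R, a * r ∈ R ∧ r * a ∈ R)
    (hfR : ∀ a : A, ∃ r ∈ R, mulP f (0, a) - χ a • f = (0, r))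
    (hpro : ∀ U ∈ 𝓝 (0 : A), ∃ n : ℕ, ∀ l : List A, l.length = n → (∀ r ∈ l, r ∈ R) →
      ∀ c ∈ R, l.foldr (· * ·) c ∈ U) :
    (∃ X : FMod A, X.HasKilled χ ∧ HasCores X) ↔ Normable (fixP f) := by
  refine ⟨?_, exists_of_normable hff hf0 hχ hfR hpro⟩
  rintro ⟨X, ⟨k, x, hx, hxk⟩, hX⟩
  obtain ⟨y, hy, hya⟩ := exists_killed (χ := fun a => χ a) k hx hxk
  obtain ⟨J, hJ, z, hz, hza⟩ := exists_injective (χ := fun a => χ a) hX hy hya
  exact necR hJ hz hza hff hR hfR hpro

end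

theorem normable_fixP_zero : Normable (fixP (0 : ℂ × A)) := by
  have h0 : ∀ x : fixP (0 : ℂ × A), x = 0 := by
    intro x
    refine Subtype.ext ?_
    have h1 : mulP 0 x.1 = x.1 := x.2
    rw [← h1]
    have h2 : ∀ z : ℂ × A, mulP 0 z = 0 := fun z => by
      have h3 := smul_mulP (0 : ℂ) z z
      rwa [zero_smul, zero_smul] at h3
    exact h2 x.1
  refine normable_of_bound (p := 0) continuous_const fun O hO => ⟨1, one_pos, fun x _ => ?_⟩
  rw [h0 x]
  exact mem_of_mem_nhds hO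

/-- The main theorem. -/
theorem main_fam {f : ℕ → ℂ × A} (hf : Fam f) (R : Submodule ℂ A)
    (hR : ∀ a : A, ∀ r ∈ R, a * r ∈ R ∧ r * a ∈ R)
    (hpro : ∀ U ∈ 𝓝 (0 : A), ∃ n : ℕ, ∀ l : List A, l.length = n → (∀ r ∈ l, r ∈ R) →
      ∀ c ∈ R, l.foldr (· * ·) c ∈ U)
    (χ : ℕ → (A →L[ℂ] ℂ)) (hχ : ∀ i a b, χ i (a * b) = χ i a * χ i b)
    (hfR : ∀ i, ∀ a : A, ∃ r ∈ R, mulP (f i) (0, a) - χ i a • f i = (0, r)) :
    ((∀ X : FMod A, HasCores X) ↔ ∀ i, Normable (fixP (f i))) ∧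
      ∀ i, f i ≠ 0 →
        ((∃ X : FMod A, X.HasKilled (χ i) ∧ HasCores X) ↔ Normable (fixP (f i))) := by
  have h2 : ∀ i, f i ≠ 0 →
      ((∃ X : FMod A, X.HasKilled (χ i) ∧ HasCores X) ↔ Normable (fixP (f i))) :=
    fun i hi => iff_normable (hf.idem i) hi (hχ i) hR (hfR i) hpro
  refine ⟨⟨fun h i => ?_, fun h X => ?_⟩, h2⟩
  · by_cases hi : f i = 0
    · rw [hi]
      exact normable_fixP_zero
    · refine (h2 i hi).1 ?_
      obtain ⟨X, x, hx, hxa⟩ := exists_chiM (χ i) (hχ i)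
      refine ⟨X, ⟨1, x, hx, fun l hl => ?_⟩, h X⟩
      obtain ⟨a, rfl⟩ := List.length_eq_one_iff.1 hl
      show X.act a x - χ i a • x = 0
      rw [hxa, sub_self]
  · exact (hasCores_iff X).2 (hf.hasInjectiveCoresolution h X)

end Pool.Agent.Helper20.FA
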