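import Pool.Agent.Helper20.FA.Short

/-!
# The unitization of a Fréchet algebra
-/

open Topology Filter

namespace Pool.Agent.Helper20.FA

universe u

attribute [local instance] IsFrechet.tag IsFrechet.csm

variable {A : Type u} [NonUnitalRing A] [Module ℂ A] [TopologicalSpace A]

/-- The product of `A_+ = ℂ × A`. -/
def mulP (z w : ℂ × A) : ℂ × A := (z.1 * w.1, z.1 • w.2 + w.1 • z.2 + z.2 * w.2)

theorem mulP_def (z w : ℂ × A) :
    mulP z w = (z.1 * w.1, z.1 • w.2 + w.1 • z.2 + z.2 * w.2) := rfl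

/-- The action of `A_+`. -/
def FMod.actP (X : FMod A) (z : ℂ × A) (x : X.X) : X.X := z.1 • x + X.act z.2 x

theorem FMod.actP_def (X : FMod A) (z : ℂ × A) (x : X.X) :
    X.actP z x = z.1 • x + X.act z.2 x := rfl

theorem FMod.actP_zero (X : FMod A) (z : ℂ × A) : X.actP z 0 = 0 := by
  rw [X.actP_def, smul_zero, map_zero, add_zero]

theorem FMod.actP_add (X : FMod A) (z : ℂ × A) (x y : X.X) :
    X.actP z (x + y) = X.actP z x + X.actP z y := by
  rw [X.actP_def, X.actP_def, X.actP_def, smul_add, map_add]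
  abel

theorem FMod.actP_smul (X : FMod A) (z : ℂ × A) (r : ℂ) (x : X.X) :
    X.actP z (r • x) = r • X.actP z x := by
  rw [X.actP_def, X.actP_def, map_smul, smul_add, smul_comm]

theorem FMod.add_actP (X : FMod A) (z w : ℂ × A) (x : X.X) :
    X.actP (z + w) x = X.actP z x + X.actP w x := by
  rw [X.actP_def, X.actP_def, X.actP_def, Prod.fst_add, Prod.snd_add, add_smul, map_add,
    LinearMap.add_apply]
  abel

theorem FMod.smul_actP (X : FMod A) (r : ℂ) (z : ℂ × A) (x : X.X) :
    X.actP (r • z) x = r • X.actP z x := by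
  rw [X.actP_def, X.actP_def, Prod.smul_fst, Prod.smul_snd, smul_eq_mul, mul_smul, map_smul,
    LinearMap.smul_apply, smul_add]

theorem FMod.one_actP (X : FMod A) (x : X.X) : X.actP (1, 0) x = x := by
  rw [X.actP_def, one_smul, map_zero, LinearMap.zero_apply, add_zero]

theorem FMod.actP_mulP (X : FMod A) (z w : ℂ × A) (x : X.X) :
    X.actP (mulP z w) x = X.actP z (X.actP w x) := by
  simp only [X.actP_def, mulP_def, map_add, map_smul, LinearMap.add_apply, LinearMap.smul_apply,
    X.act_mul, smul_add, mul_smul]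
  abel

theorem FMod.continuous_actP (X : FMod A) :
    Continuous fun p : (ℂ × A) × X.X => X.actP p.1 p.2 := by
  have h1 : Continuous fun p : (ℂ × A) × X.X => X.act p.1.2 p.2 :=
    X.act_cont.comp (by fun_prop : Continuous fun p : (ℂ × A) × X.X => (p.1.2, p.2))
  exact (by fun_prop : Continuous fun p : (ℂ × A) × X.X => p.1.1 • p.2).add h1

/-- The action of an element of `A_+`, as a continuous linear map. -/
noncomputable def FMod.actL (X : FMod A) (z : ℂ × A) : X.X →L[ℂ] X.X where
  toFun x := X.actP z x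
  map_add' x y := X.actP_add z x y
  map_smul' r x := X.actP_smul z r x
  cont := X.continuous_actP.comp (by fun_prop : Continuous fun x : X.X => (z, x))

section

variable [IsScalarTower ℂ A A] [SMulCommClass ℂ A A]

omit [TopologicalSpace A] in
theorem mulP_assoc (x y z : ℂ × A) : mulP (mulP x y) z = mulP x (mulP y z) := by
  simp only [mulP_def, smul_add, add_mul, mul_add, mul_smul, smul_mul_assoc, mul_smul_comm,
    mul_assoc]
  congr 1
  rw [smul_comm z.1 x.1 y.2]
  have h1 : z.1 • y.1 • x.2 = y.1 • z.1 • x.2 := smul_comm _ _ _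
  rw [h1]
  abel

omit [TopologicalSpace A] in
theorem mulP_add (x y z : ℂ × A) : mulP x (y + z) = mulP x y + mulP x z := by
  simp only [mulP_def, Prod.fst_add, Prod.snd_add, smul_add, add_smul, mul_add, Prod.mk_add_mk]
  congr 1
  abel

omit [TopologicalSpace A] in
theorem add_mulP (x y z : ℂ × A) : mulP (x + y) z = mulP x z + mulP y z := by
  simp only [mulP_def, Prod.fst_add, Prod.snd_add, smul_add, add_smul, add_mul, Prod.mk_add_mk]
  congr 1
  abel

omit [TopologicalSpace A] [IsScalarTower ℂ A A] in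
theorem mulP_smul (r : ℂ) (x y : ℂ × A) : mulP x (r • y) = r • mulP x y := by
  simp only [mulP_def, Prod.smul_fst, Prod.smul_snd, smul_eq_mul, Prod.smul_mk, smul_add,
    mul_smul_comm, mul_smul, smul_comm x.1 r]
  congr 1
  ring

omit [TopologicalSpace A] [SMulCommClass ℂ A A] in
theorem smul_mulP (r : ℂ) (x y : ℂ × A) : mulP (r • x) y = r • mulP x y := by
  simp only [mulP_def, Prod.smul_fst, Prod.smul_snd, smul_eq_mul, Prod.smul_mk, smul_add,
    smul_mul_assoc, mul_smul, smul_comm y.1 r]
  congr 1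
  ring

omit [TopologicalSpace A] [IsScalarTower ℂ A A] [SMulCommClass ℂ A A] in
theorem one_mulP (x : ℂ × A) : mulP (1, 0) x = x := by
  simp [mulP_def]

omit [TopologicalSpace A] [IsScalarTower ℂ A A] [SMulCommClass ℂ A A] in
theorem mulP_one (x : ℂ × A) : mulP x (1, 0) = x := by
  simp [mulP_def]

omit [IsScalarTower ℂ A A] [SMulCommClass ℂ A A] in
theorem continuous_mulP [IsFrechet A] [ContinuousMul A] :
    Continuous fun p : (ℂ × A) × (ℂ × A) => mulP p.1 p.2 := by
  show Continuous fun p : (ℂ × A) × (ℂ × A) =>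
    (p.1.1 * p.2.1, p.1.1 • p.2.2 + p.2.1 • p.1.2 + p.1.2 * p.2.2)
  fun_prop

/-- Multiplication, as a bilinear map. -/
def mulPL : (ℂ × A) →ₗ[ℂ] (ℂ × A) →ₗ[ℂ] (ℂ × A) :=
  LinearMap.mk₂ ℂ mulP add_mulP smul_mulP mulP_add fun r x y => mulP_smul r x y

omit [TopologicalSpace A] in
theorem mulPL_apply (x y : ℂ × A) : mulPL x y = mulP x y := rfl

/-- Left multiplication, as a continuous linear map. -/
noncomputable def lmul [IsFrechet A] [ContinuousMul A] (x : ℂ × A) : (ℂ × A) →L[ℂ] (ℂ × A) :=
  ⟨mulPL x, continuous_mulP.comp (by fun_prop : Continuous fun y : ℂ × A => (x, y))⟩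

theorem lmul_apply [IsFrechet A] [ContinuousMul A] (x y : ℂ × A) : lmul x y = mulP x y := rfl

end

end Pool.Agent.Helper20.FA
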