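import Pool.Agent.Helper20.FA.Cores
import Pool.Agent.Helper20.FG.Alg

/-!
# Coresolutions from embeddings, and right modules
-/

open Topology Filter Pointwise

namespace Pool.Agent.Helper20.FA

universe u v

attribute [local instance] IsFrechet.tag IsFrechet.csm

section

variable {A : Type u} [NonUnitalRing A] [Module ℂ A] [TopologicalSpace A]

/-- An embedding with continuous linear left inverse into an injective module. -/
structure Emb (X : FMod A) where
  J : FMod A
  inj : Injective J
  e : X.X →L[ℂ] J.X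
  s : J.X →L[ℂ] X.X
  hom : IsHom X J e
  left : ∀ x, s (e x) = x

/-- The image of an embedding. -/
def Emb.im {X : FMod A} (E : Emb X) : Submodule ℂ E.J.X where
  carrier := {φ | E.e (E.s φ) = φ}
  add_mem' := by
    intro φ ψ hφ hψ
    show E.e (E.s (φ + ψ)) = φ + ψ
    rw [map_add, map_add, hφ, hψ]
  zero_mem' := by
    show E.e (E.s 0) = 0
    rw [map_zero, map_zero]
  smul_mem' := by
    intro r φ hφ
    show E.e (E.s (r • φ)) = r • φ
    rw [map_smul, map_smul, hφ]

theorem Emb.mem_im {X : FMod A} {E : Emb X} {φ : E.J.X} : φ ∈ E.im ↔ E.e (E.s φ) = φ := Iff.rfl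

theorem Emb.isClosed_im {X : FMod A} (E : Emb X) : IsClosed (E.im : Set E.J.X) := by
  have := E.J.fre.metr
  exact isClosed_eq (E.e.continuous.comp E.s.continuous) continuous_id

theorem Emb.im_le {X : FMod A} (E : Emb X) (a : A) : E.im ≤ E.im.comap (E.J.act a) := by
  intro φ hφ
  rw [Emb.mem_im] at hφ
  rw [Submodule.mem_comap, Emb.mem_im, ← hφ, ← E.hom, E.left]

/-- The cokernel of an embedding. -/
noncomputable def Emb.coker {X : FMod A} (E : Emb X) : FMod A where
  X := E.J.X ⧸ E.im
  fre := IsFrechet.quot E.im E.isClosed_im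
  act :=
    { toFun := fun a => E.im.mapQ E.im (E.J.act a) (E.im_le a)
      map_add' := by
        intro a b
        ext1
        refine LinearMap.ext fun z => ?_
        simp
      map_smul' := by
        intro r a
        ext1
        refine LinearMap.ext fun z => ?_
        simp }
  act_mul := by
    intro a b x
    obtain ⟨z, rfl⟩ := E.im.mkQ_surjective x
    show E.im.mkQ (E.J.act (a * b) z) = E.im.mkQ (E.J.act a (E.J.act b z))
    rw [E.J.act_mul]
  act_cont := by
    rw [← (IsOpenQuotientMap.id.prodMap E.im.isOpenQuotientMap_mkQ).continuous_comp_iff]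
    exact E.im.continuous_mkQ.comp E.J.act_cont

/-- The projection. -/
noncomputable def Emb.prj {X : FMod A} (E : Emb X) : E.J.X →L[ℂ] E.coker.X := E.im.mkQL

/-- The section. -/
noncomputable def Emb.sec {X : FMod A} (E : Emb X) : E.coker.X →L[ℂ] E.J.X :=
  E.im.liftQL (ContinuousLinearMap.id ℂ E.J.X - E.e.comp E.s) (by
    intro φ hφ
    rw [Emb.mem_im] at hφ
    show φ - E.e (E.s φ) = 0
    rw [hφ, sub_self])

theorem Emb.sec_prj {X : FMod A} (E : Emb X) (φ : E.J.X) :
    E.sec (E.prj φ) = φ - E.e (E.s φ) := rfl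

theorem Emb.prj_e {X : FMod A} (E : Emb X) (x : X.X) : E.prj (E.e x) = 0 := by
  have h1 : E.e x ∈ E.im := by rw [Emb.mem_im, E.left]
  show E.im.mkQ (E.e x) = 0
  rw [Submodule.mkQ_apply, (Submodule.Quotient.mk_eq_zero _).2 h1]

theorem Emb.prj_sec {X : FMod A} (E : Emb X) (q : E.coker.X) : E.prj (E.sec q) = q := by
  obtain ⟨φ, rfl⟩ : ∃ φ, E.prj φ = q := E.im.mkQ_surjective q
  rw [Emb.sec_prj, map_sub, Emb.prj_e, sub_zero]

/-- The iterated cokernels. -/
noncomputable def seqE (E : ∀ X : FMod A, Emb X) (X : FMod A) : ℕ → FMod A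
  | 0 => X
  | n + 1 => (E (seqE E X n)).coker

/-- If all modules have embeddings, then all modules have injective coresolutions. -/
theorem hasInj_of_emb (h : ∀ X : FMod A, Nonempty (Emb X)) (X : FMod A) :
    HasInjectiveCoresolution X := by
  let E : ∀ X : FMod A, Emb X := fun X => (h X).some
  refine ⟨fun n => (E (seqE E X n)).J, fun n => (E (seqE E X n)).inj, (E X).e,
    fun n => (E (seqE E X (n + 1))).e.comp (E (seqE E X n)).prj, ?_, ?_, ?_, ?_, (E X).s,
    fun n => (E (seqE E X n)).sec.comp (E (seqE E X (n + 1))).s, ?_, ?_, ?_⟩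
  · intro a x
    exact (E X).hom a x
  · intro n a x
    exact (E (seqE E X (n + 1))).hom a ((E (seqE E X n)).prj x)
  · intro x
    show (E (seqE E X 1)).e ((E X).prj ((E X).e x)) = 0
    rw [Emb.prj_e]
    exact map_zero (E (seqE E X 1)).e
  · intro n x
    show (E (seqE E X (n + 2))).e ((E (seqE E X (n + 1))).prj ((E (seqE E X (n + 1))).e
      ((E (seqE E X n)).prj x))) = 0
    rw [Emb.prj_e]
    exact map_zero (E (seqE E X (n + 2))).e
  · intro x
    exact (E X).left x
  · intro y
    show (E X).e ((E X).s y) + (E X).sec ((E (seqE E X 1)).s ((E (seqE E X 1)).e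
      ((E X).prj y))) = y
    rw [(E (seqE E X 1)).left]
    show (E X).e ((E X).s y) + (E X).sec ((E X).prj y) = y
    rw [Emb.sec_prj, add_sub_cancel]
  · intro n y
    show (E (seqE E X (n + 1))).e ((E (seqE E X n)).prj ((E (seqE E X n)).sec
      ((E (seqE E X (n + 1))).s y))) + (E (seqE E X (n + 1))).sec ((E (seqE E X (n + 2))).s
      ((E (seqE E X (n + 2))).e ((E (seqE E X (n + 1))).prj y))) = y
    rw [(E (seqE E X (n + 2))).left]
    show (E (seqE E X (n + 1))).e ((E (seqE E X n)).prj ((E (seqE E X n)).sec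
      ((E (seqE E X (n + 1))).s y))) + (E (seqE E X (n + 1))).sec
      ((E (seqE E X (n + 1))).prj y) = y
    rw [Emb.prj_sec, Emb.sec_prj, add_sub_cancel]

/-- Countable products of modules. -/
def piM (J : ℕ → FMod A) (h : IsFrechet (∀ i, (J i).X)) : FMod A where
  X := ∀ i, (J i).X
  fre := h
  act := LinearMap.mk₂ ℂ (fun a x i => (J i).act a (x i))
    (by intro a b x; funext i; exact LinearMap.map_add₂ ..)
    (by intro r a x; funext i; exact LinearMap.map_smul₂ ..)
    (by intro a x y; funext i; exact map_add _ _ _)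
    (by intro r a x; funext i; exact map_smul _ _ _)
  act_mul := by
    intro a b x
    funext i
    exact (J i).act_mul a b (x i)
  act_cont := by
    refine continuous_pi fun i => ?_
    exact (J i).act_cont.comp
      (by fun_prop : Continuous fun p : A × (∀ i, (J i).X) => (p.1, p.2 i))

/-- A normable right module. -/
structure RMod (A : Type u) [NonUnitalRing A] [Module ℂ A] [TopologicalSpace A] :
    Type (u + 1) where
  V : Type u
  [acg : AddCommGroup V]
  [mdl : Module ℂ V]
  [top : TopologicalSpace V]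
  [fre : IsFrechet V]
  r : A →ₗ[ℂ] V →ₗ[ℂ] V
  r_mul : ∀ (a b : A) (x : V), r (a * b) x = r b (r a x)
  r_cont : Continuous fun p : A × V => r p.1 p.2
  nrm : Normable V

attribute [instance] RMod.acg RMod.mdl RMod.top RMod.fre

/-- The action, as a continuous linear map. -/
def RMod.rL (V : RMod A) (a : A) : V.V →L[ℂ] V.V :=
  ⟨V.r a, V.r_cont.comp (by fun_prop : Continuous fun x : V.V => (a, x))⟩

theorem RMod.rL_apply (V : RMod A) (a : A) (x : V.V) : V.rL a x = V.r a x := rfl

theorem RMod.exists_bdd (V : RMod A) : ∃ B ∈ 𝓝 (0 : V.V), Bornology.IsVonNBounded ℂ B := by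
  obtain ⟨p, hp⟩ := V.nrm
  have hpc : Continuous p := hp.continuous_seminorm ()
  refine ⟨{a | p a < 1}, ?_, ?_⟩
  · refine (isOpen_lt hpc continuous_const).mem_nhds ?_
    simp
  · exact hp.isVonNBounded_iff_seminorm_bounded.2 fun _ => ⟨1, one_pos, fun x hx => hx⟩

/-- The action of `A` on the continuous linear maps on a right module. -/
noncomputable def actR (V : RMod A) (X : Type u) [AddCommGroup X] [Module ℂ X]
    [TopologicalSpace X] [IsFrechet X] : A →ₗ[ℂ] (V.V →L[ℂ] X) →ₗ[ℂ] (V.V →L[ℂ] X) :=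
  LinearMap.mk₂ ℂ (fun a φ => φ.comp (V.rL a))
    (by
      intro a b φ
      refine ContinuousLinearMap.ext fun z => ?_
      show φ (V.r (a + b) z) = φ (V.r a z) + φ (V.r b z)
      rw [← map_add, map_add, LinearMap.add_apply])
    (by
      intro r a φ
      refine ContinuousLinearMap.ext fun z => ?_
      show φ (V.r (r • a) z) = r • φ (V.r a z)
      rw [← map_smul, map_smul, LinearMap.smul_apply])
    (by
      intro a φ ψ
      rfl)
    (by
      intro r a φ
      rfl)

theorem actR_apply (V : RMod A) {X : Type u} [AddCommGroup X] [Module ℂ X]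
    [TopologicalSpace X] [IsFrechet X] (a : A) (φ : V.V →L[ℂ] X) (z : V.V) :
    actR V X a φ z = φ (V.r a z) := rfl

end

section

variable {A : Type u} [NonUnitalRing A] [Module ℂ A] [TopologicalSpace A] [IsFrechet A]

theorem continuous_actR (V : RMod A) {X : Type u} [AddCommGroup X] [Module ℂ X]
    [TopologicalSpace X] [IsFrechet X] :
    Continuous fun p : A × (V.V →L[ℂ] X) => actR V X p.1 p.2 := by
  refine continuous_bilin (G := A) (H := V.V →L[ℂ] X) (K := V.V →L[ℂ] X)
    (actR V X) ?_ ?_ ?_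
  · obtain ⟨B, hB, hBb⟩ := V.exists_bdd
    have h0 : actR V X (0 : A) (0 : V.V →L[ℂ] X) = 0 := by simp
    rw [ContinuousAt]
    show Tendsto _ _ (𝓝 (actR V X (0 : A) (0 : V.V →L[ℂ] X)))
    rw [h0, (hasBasis_clm hB hBb).tendsto_right_iff]
    intro W hW
    have h1 : (fun p : A × V.V => V.r p.1 p.2) ⁻¹' B ∈ 𝓝 ((0 : A), (0 : V.V)) := by
      refine V.r_cont.continuousAt.preimage_mem_nhds ?_
      simpa using hB
    rw [nhds_prod_eq, Filter.mem_prod_iff] at h1
    obtain ⟨V2, hV2, V1, hV1, hV12⟩ := h1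
    obtain ⟨c, hBc, hc⟩ := ((hBb hV1).and (Bornology.eventually_ne_cobounded (0 : ℂ))).exists
    have h3 : c⁻¹ • V2 ∈ 𝓝 (0 : A) := (set_smul_mem_nhds_zero_iff (inv_ne_zero hc)).2 hV2
    have h4 : {φ : V.V →L[ℂ] X | ∀ x ∈ B, φ x ∈ W} ∈ 𝓝 (0 : V.V →L[ℂ] X) :=
      (hasBasis_clm hB hBb).mem_of_mem hW
    filter_upwards [prod_mem_nhds h3 h4]
    rintro ⟨a, φ⟩ ⟨ha, hφ⟩ z hz
    obtain ⟨b, hb, rfl⟩ := ha
    obtain ⟨y, hy, rfl⟩ := hBc hz
    show φ (V.r (c⁻¹ • b) (c • y)) ∈ W
    have h5 : V.r (c⁻¹ • b) (c • y) = V.r b y := by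
      rw [map_smul, map_smul, LinearMap.smul_apply, smul_inv_smul₀ hc]
    rw [h5]
    exact hφ _ (hV12 (Set.mk_mem_prod hb hy))
  · intro a
    exact (ContinuousLinearMap.precomp X (V.rL a)).continuous
  · intro φ
    refine ContinuousLinearMap.continuous_of_continuous_uncurry
      ((actR V X).flip φ) ?_
    exact φ.continuous.comp V.r_cont

/-- The continuous linear maps on a normable right module. -/
noncomputable def CofR (V : RMod A) (X : FMod A) : FMod A where
  X := V.V →L[ℂ] X.X
  fre := by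
    obtain ⟨B, hB, hBb⟩ := V.exists_bdd
    exact IsFrechet.clm hB hBb
  act := actR V X.X
  act_mul := by
    intro a b φ
    refine ContinuousLinearMap.ext fun z => ?_
    show φ (V.r (a * b) z) = φ (V.r b (V.r a z))
    rw [V.r_mul]
  act_cont := continuous_actR V

end

end Pool.Agent.Helper20.FA
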