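import Pool.Agent.Helper20.FG.Nec2

/-!
# The criterion for sequences with the zero product
-/

open Topology Filter

namespace Pool.Agent.Helper20.FA

/-- The trivial family of idempotents. -/
noncomputable def fam0 : ℕ → ℂ × ZSeq := fun i => if i = 0 then (1, 0) else 0

theorem zero_mulP' (z : ℂ × ZSeq) : mulP 0 z = 0 := by
  have h3 := smul_mulP (0 : ℂ) z z
  rwa [zero_smul, zero_smul] at h3

theorem fam0_fam : Fam fam0 where
  idem i := by
    by_cases hi : i = 0
    · have h1 : fam0 i = (1, 0) := if_pos hi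
      rw [h1, one_mulP]
    · have h1 : fam0 i = 0 := if_neg hi
      rw [h1, zero_mulP']
  small U hU := by
    refine ⟨1, fun i hi z => ?_⟩
    have h1 : fam0 i = 0 := if_neg (by omega)
    rw [h1, zero_mulP']
    exact mem_of_mem_nhds hU
  sum := by
    refine tendsto_const_nhds.congr' ?_
    filter_upwards [eventually_ge_atTop 1] with n hn
    rw [Finset.sum_eq_single 0]
    · exact (if_pos rfl : fam0 0 = (1, 0)).symm
    · intro i _ hi
      exact if_neg hi
    · intro h
      exact absurd (Finset.mem_range.2 (by omega)) h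

theorem top_proNil : ProNilIdeal (⊤ : Submodule ℂ ZSeq) := by
  refine ⟨fun _ _ _ => ⟨trivial, trivial⟩, fun U hU => ⟨1, fun l hl _ c _ => ?_⟩⟩
  obtain ⟨a, rfl⟩ := List.length_eq_one_iff.1 hl
  exact mem_of_mem_nhds hU

theorem normableMod_fam0 (i : ℕ) : NormableMod (⊤ : Submodule ℂ ZSeq) (fam0 i) := by
  let π : (ℂ × ZSeq) →L[ℂ] (ℂ × ZSeq) :=
    if i = 0 then
      (ContinuousLinearMap.inl ℂ ℂ ZSeq).comp (ContinuousLinearMap.fst ℂ ℂ ZSeq) else 0
  have hπ : ∀ z, (π z).2 = 0 := by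
    intro z
    by_cases hi : i = 0
    · have h1 : π = (ContinuousLinearMap.inl ℂ ℂ ZSeq).comp
        (ContinuousLinearMap.fst ℂ ℂ ZSeq) := if_pos hi
      rw [h1]
      rfl
    · have h1 : π = 0 := if_neg hi
      rw [h1]
      rfl
  refine ⟨π, ⟨fun z => ?_, fun z => ?_, fun z hz => ?_⟩, ?_⟩
  · by_cases hi : i = 0
    · have h1 : fam0 i = (1, 0) := if_pos hi
      rw [h1, one_mulP]
    · have h1 : π = 0 := if_neg hi
      rw [h1]
      exact map_zero (mulPL (fam0 i))
  · refine ⟨(mulP (fam0 i) z - π z).2, trivial, Prod.ext ?_ rfl⟩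
    by_cases hi : i = 0
    · have h1 : π = (ContinuousLinearMap.inl ℂ ℂ ZSeq).comp
        (ContinuousLinearMap.fst ℂ ℂ ZSeq) := if_pos hi
      have h2 : fam0 i = (1, 0) := if_pos hi
      rw [h1, h2, one_mulP]
      exact sub_self z.1
    · have h1 : π = 0 := if_neg hi
      have h2 : fam0 i = 0 := if_neg hi
      rw [h1, h2, zero_mulP']
      exact sub_zero (0 : ℂ)
  · obtain ⟨r, -, hr⟩ := hz
    by_cases hi : i = 0
    · have h1 : π = (ContinuousLinearMap.inl ℂ ℂ ZSeq).comp
        (ContinuousLinearMap.fst ℂ ℂ ZSeq) := if_pos hi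
      have h2 : fam0 i = (1, 0) := if_pos hi
      rw [h2, one_mulP] at hr
      rw [h1, hr]
      rfl
    · have h1 : π = 0 := if_neg hi
      rw [h1]
      rfl
  · let q : Seminorm ℂ (ℂ × ZSeq) := (normSeminorm ℂ ℂ).comp (LinearMap.fst ℂ ℂ ZSeq)
    have hq : ∀ z, q z = ‖z.1‖ := fun z => rfl
    have hqc : Continuous q := by
      show Continuous fun z : ℂ × ZSeq => ‖z.1‖
      fun_prop
    have hZ : IsFrechet ZSeq := inferInstance
    have := hZ.tag
    refine normable_of_bound (p := q.comp (rangeL π).subtype)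
      (hqc.comp continuous_subtype_val) fun O hO => ?_
    rw [nhds_subtype_eq_comap] at hO
    obtain ⟨O', hO', hOO⟩ := hO
    have h0 : O' ∈ 𝓝 ((0 : ℂ), (0 : ZSeq)) := hO'
    rw [nhds_prod_eq, Filter.mem_prod_iff] at h0
    obtain ⟨V1, hV1, V2, hV2, hV⟩ := h0
    obtain ⟨r, hr, hrV⟩ := Metric.mem_nhds_iff.1 hV1
    refine ⟨r, hr, fun x hx => hOO (hV ⟨hrV ?_, ?_⟩)⟩
    · rw [Metric.mem_ball, dist_zero_right]
      exact hx
    · obtain ⟨z, hz⟩ := x.2
      have h1 : x.1.2 = 0 := by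
        rw [← hz]
        exact hπ z
      rw [h1]
      exact mem_of_mem_nhds hV2

/-- The criterion applies, and some module has no injective coresolution. -/
theorem ZSeq.exists_not_hasCores : ∃ X : FMod ZSeq, ¬ HasCores X := by
  by_contra h
  push Not at h
  have h1 := (main_mod fam0_fam top_proNil normableMod_fam0).1 h 0
  have h2 : fam0 0 = (1, 0) := if_pos rfl
  rw [h2] at h1
  refine ZSeq.not_normable ?_
  obtain ⟨p, hp⟩ := h1
  have hpc : Continuous p := hp.continuous_seminorm ()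
  have hZ : IsFrechet ZSeq := inferInstance
  have := hZ.tag
  have := hZ.csm
  let j : ZSeq →ₗ[ℂ] fixP ((1 : ℂ), (0 : ZSeq)) :=
    { toFun := fun a => ⟨(0, a), one_mulP _⟩
      map_add' := fun a b => Subtype.ext (by
        show ((0 : ℂ), a + b) = ((0 : ℂ), a) + ((0 : ℂ), b)
        rw [Prod.mk_add_mk, add_zero])
      map_smul' := fun r a => Subtype.ext (by
        show ((0 : ℂ), r • a) = r • ((0 : ℂ), a)
        rw [Prod.smul_mk, smul_zero]) }
  have hj : Continuous j := by
    refine Continuous.subtype_mk ?_ _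
    exact (by fun_prop : Continuous fun a : ZSeq => ((0 : ℂ), a))
  refine normable_of_bound (p := p.comp j) (hpc.comp hj) fun O hO => ?_
  have h3 : {x : fixP ((1 : ℂ), (0 : ZSeq)) | x.1.2 ∈ O} ∈
      𝓝 (0 : fixP ((1 : ℂ), (0 : ZSeq))) := by
    have h4 : Continuous fun x : fixP ((1 : ℂ), (0 : ZSeq)) => x.1.2 := by fun_prop
    exact h4.continuousAt.preimage_mem_nhds hO
  rw [SeminormFamily.withSeminorms_iff_nhds_eq_iInf, iInf_const] at hp
  rw [hp] at h3
  obtain ⟨t, ht, hts⟩ := h3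
  obtain ⟨r, hr, hrt⟩ := Metric.mem_nhds_iff.1 ht
  refine ⟨r, hr, fun x hx => ?_⟩
  have h5 : j x ∈ p ⁻¹' t := by
    refine hrt ?_
    rw [Metric.mem_ball, Real.dist_0_eq_abs, abs_of_nonneg (apply_nonneg _ _)]
    exact hx
  exact hts h5

end Pool.Agent.Helper20.FA
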