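import Pool.Agent.Helper20.FG.Alg

/-!
# Extensions by closed left ideals of the unitization
-/

open Topology Filter

namespace Pool.Agent.Helper20.FA

universe u

variable {A : Type u} [NonUnitalRing A] [Module ℂ A] [IsScalarTower ℂ A A] [SMulCommClass ℂ A A]
  [TopologicalSpace A] [IsFrechet A] [ContinuousMul A]

/-- The graph by which one divides. -/
def grP (J : FMod A) (y : J.X) (L : Submodule ℂ (ℂ × A)) (f : (ℂ × A) →L[ℂ] ℂ) :
    Submodule ℂ (J.X × (ℂ × A)) where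
  carrier := {z | z.2 ∈ L ∧ z.1 = -(f z.2 • y)}
  add_mem' := by
    rintro z w ⟨h2, h3⟩ ⟨h5, h6⟩
    refine ⟨L.add_mem h2 h5, ?_⟩
    rw [Prod.fst_add, h3, h6, Prod.snd_add, map_add, add_smul, neg_add]
  zero_mem' := by
    refine ⟨L.zero_mem, ?_⟩
    simp
  smul_mem' := by
    rintro r z ⟨h2, h3⟩
    refine ⟨L.smul_mem r h2, ?_⟩
    rw [Prod.smul_fst, h3, Prod.smul_snd, map_smul, smul_eq_mul, mul_smul, smul_neg]

omit [IsScalarTower ℂ A A] [SMulCommClass ℂ A A] [IsFrechet A] [ContinuousMul A] in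
theorem mem_grP {J : FMod A} {y : J.X} {L : Submodule ℂ (ℂ × A)} {f : (ℂ × A) →L[ℂ] ℂ}
    {z : J.X × (ℂ × A)} : z ∈ grP J y L f ↔ z.2 ∈ L ∧ z.1 = -(f z.2 • y) :=
  Iff.rfl

omit [IsScalarTower ℂ A A] [SMulCommClass ℂ A A] [IsFrechet A] [ContinuousMul A] in
theorem isClosed_grP (J : FMod A) (y : J.X) {L : Submodule ℂ (ℂ × A)}
    (hL : IsClosed (L : Set (ℂ × A))) (f : (ℂ × A) →L[ℂ] ℂ) :
    IsClosed (grP J y L f : Set (J.X × (ℂ × A))) := by
  have := J.fre.tag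
  have := J.fre.csm
  have := J.fre.metr
  have h2 : IsClosed {z : J.X × (ℂ × A) | z.2 ∈ L} :=
    hL.preimage (by fun_prop : Continuous fun z : J.X × (ℂ × A) => z.2)
  have h3 : IsClosed {z : J.X × (ℂ × A) | z.1 = -(f z.2 • y)} :=
    isClosed_eq (by fun_prop) (by fun_prop)
  exact h2.inter h3

theorem exists_extP {J : FMod A} (hJ : Injective J) {χ : A → ℂ} {y : J.X}
    (hy : ∀ a, J.act a y = χ a • y)
    (L : Submodule ℂ (ℂ × A)) (hLc : IsClosed (L : Set (ℂ × A)))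
    (hL : ∀ a : A, ∀ c ∈ L, mulP (0, a) c ∈ L)
    (f : (ℂ × A) →L[ℂ] ℂ) (hf : ∀ a : A, ∀ c ∈ L, f (mulP (0, a) c) = χ a * f c) :
    ∃ x : J.X, ∀ c ∈ L, J.actP c x = f c • y := by
  have hA : IsFrechet A := inferInstance
  have := hA.tag
  have := hA.csm
  have := J.fre.tag
  have := J.fre.csm
  have := J.fre.metr
  set N := grP J y L f with hN
  have hmul : ∀ (a : A) (w : ℂ × A), mulP (0, a) w = ((0 : ℂ), w.1 • a + a * w.2) := by
    intro a w
    rw [mulP_def, zero_mul, zero_smul, zero_add]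
  have hst : ∀ a : A, N ≤ N.comap (actZ J a) := by
    rintro a z ⟨h2, h3⟩
    rw [Submodule.mem_comap, actZ_apply, hN, mem_grP]
    refine ⟨?_, ?_⟩
    · show ((0 : ℂ), z.2.1 • a + a * z.2.2) ∈ L
      rw [← hmul]
      exact hL a _ h2
    · show J.act a z.1 = -(f ((0 : ℂ), z.2.1 • a + a * z.2.2) • y)
      rw [← hmul, hf a _ h2, h3, map_neg, map_smul, hy, smul_smul, mul_comm]
  have : IsFrechet (ℂ × A) := IsFrechet.prod
  have : IsFrechet (J.X × (ℂ × A)) := IsFrechet.prod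
  have hNc : IsClosed (N : Set (J.X × (ℂ × A))) := isClosed_grP J y hLc f
  have hQ : IsFrechet ((J.X × (ℂ × A)) ⧸ N) := IsFrechet.quot N hNc
  let actY : A →ₗ[ℂ] ((J.X × (ℂ × A)) ⧸ N) →ₗ[ℂ] ((J.X × (ℂ × A)) ⧸ N) :=
    { toFun := fun a => N.mapQ N (actZ J a) (hst a)
      map_add' := by
        intro a b
        ext1
        refine LinearMap.ext fun z => ?_
        simp
      map_smul' := by
        intro r a
        ext1
        refine LinearMap.ext fun z => ?_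
        simp }
  have hact : ∀ a z, actY a (N.mkQ z) = N.mkQ (actZ J a z) := fun a z => rfl
  let Y : FMod A :=
    { X := (J.X × (ℂ × A)) ⧸ N
      act := actY
      act_mul := by
        intro a b x
        obtain ⟨z, rfl⟩ := N.mkQ_surjective x
        rw [hact, hact, hact]
        congr 1
        rw [actZ_apply, actZ_apply, actZ_apply, J.act_mul]
        simp only [zero_smul, zero_add, mul_add, mul_smul_comm, mul_assoc]
      act_cont := by
        rw [← (IsOpenQuotientMap.id.prodMap N.isOpenQuotientMap_mkQ).continuous_comp_iff]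
        have h1 : Continuous fun p : A × (J.X × (ℂ × A)) => actZ J p.1 p.2 := by
          have h2 : Continuous fun p : A × (J.X × (ℂ × A)) => J.act p.1 p.2.1 :=
            J.act_cont.comp (by fun_prop : Continuous fun p : A × (J.X × (ℂ × A)) =>
              (p.1, p.2.1))
          have h3 : Continuous fun p : A × (J.X × (ℂ × A)) => p.2.2.1 • p.1 + p.1 * p.2.2.2 := by
            fun_prop
          exact h2.prodMk (continuous_const.prodMk h3)
        exact N.continuous_mkQ.comp h1 }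
  let φ : J.X →L[ℂ] Y.X := N.mkQL.comp (ContinuousLinearMap.inl ℂ J.X (ℂ × A))
  have hφ : ∀ x, φ x = N.mkQ (x, 0) := fun x => rfl
  have hφh : IsHom J Y φ := by
    intro a x
    rw [hφ, hφ]
    show _ = actY a _
    rw [hact, actZ_apply]
    refine congrArg N.mkQ (Prod.ext rfl (Prod.ext rfl ?_))
    simp
  let ψ0 : (J.X × (ℂ × A)) →L[ℂ] J.X :=
    ContinuousLinearMap.fst ℂ J.X (ℂ × A) +
      (f.comp (ContinuousLinearMap.snd ℂ J.X (ℂ × A))).smulRight y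
  have hψ0 : ∀ z, ψ0 z = z.1 + f z.2 • y := fun z => rfl
  have hker : ∀ z ∈ N, ψ0 z = 0 := by
    rintro z ⟨h2, h3⟩
    rw [hψ0, h3, neg_add_cancel]
  obtain ⟨ρ, hρ, hρφ⟩ := hJ Y φ hφh ⟨N.liftQL ψ0 hker, by
    intro x
    show ψ0 (x, 0) = x
    rw [hψ0]
    simp⟩
  refine ⟨ρ (N.mkQ (0, (1, 0))), fun c hc => ?_⟩
  have h0 : J.actP c (ρ (N.mkQ (0, (1, 0)))) = ρ (Y.actP c (N.mkQ (0, (1, 0)))) := by
    rw [J.actP_def, Y.actP_def, map_add, map_smul, ← hρ]
  have h1 : Y.actP c (N.mkQ (0, (1, 0))) = φ (f c • y) := by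
    rw [Y.actP_def]
    show c.1 • N.mkQ (0, (1, 0)) + actY c.2 (N.mkQ (0, (1, 0))) = _
    rw [hact, hφ, actZ_apply, ← map_smul, ← map_add, ← sub_eq_zero, ← map_sub,
      ← LinearMap.mem_ker, Submodule.ker_mkQ, hN, mem_grP]
    have h2 : ((c.1 • ((0 : J.X), ((1 : ℂ), (0 : A))) + (J.act c.2 0, ((0 : ℂ),
        (1 : ℂ) • c.2 + c.2 * 0))) - (f c • y, 0) : J.X × (ℂ × A)) = (-(f c • y), c) := by
      refine Prod.ext ?_ (Prod.ext ?_ ?_) <;> simp
    have h3 : ((c.1 • ((0 : J.X), ((1 : ℂ), (0 : A))) + (J.act c.2 (0 : J.X), ((0 : ℂ),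
        ((0 : J.X), ((1 : ℂ), (0 : A))).2.1 • c.2 + c.2 * ((0 : J.X), ((1 : ℂ), (0 : A))).2.2)))
        - (f c • y, 0) : J.X × (ℂ × A)) = (-(f c • y), c) := h2
    rw [show (((0 : J.X), ((1 : ℂ), (0 : A))) : J.X × (ℂ × A)).1 = 0 from rfl, h3]
    exact ⟨hc, rfl⟩
  rw [h0, h1, hρφ]

/-- The property of a neighbourhood of zero in the unitization. -/
def GoodP (χ : A → ℂ) (U : Set (ℂ × A)) : Prop :=
  ∀ L : Submodule ℂ (ℂ × A), IsClosed (L : Set (ℂ × A)) →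
      (∀ a : A, ∀ c ∈ L, mulP (0, a) c ∈ L) → ∀ f : (ℂ × A) →L[ℂ] ℂ,
        (∀ a : A, ∀ c ∈ L, f (mulP (0, a) c) = χ a * f c) →
          ∃ M : ℝ, ∀ c ∈ U, c ∈ L → ‖f c‖ ≤ M

/-- The uniform bound for functionals on closed left ideals of the unitization. -/
theorem boundP {J : FMod A} (hJ : Injective J) {χ : A → ℂ} {y : J.X} (hy0 : y ≠ 0)
    (hy : ∀ a, J.act a y = χ a • y) : ∃ U ∈ 𝓝 (0 : ℂ × A), GoodP χ U := by
  have := J.fre.tag
  have := J.fre.csm
  have := J.fre.metr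
  obtain ⟨g, hg, -⟩ := exists_dual (⊥ : Submodule ℂ J.X) isClosed_singleton (x := y)
    (by simpa using hy0)
  have h1 : Continuous fun p : (ℂ × A) × J.X => ‖g (J.actP p.1 p.2)‖ :=
    (g.continuous.comp J.continuous_actP).norm
  have h2 : {p : (ℂ × A) × J.X | ‖g (J.actP p.1 p.2)‖ < 1} ∈ 𝓝 ((0 : ℂ × A), (0 : J.X)) := by
    refine (isOpen_lt h1 continuous_const).mem_nhds ?_
    simp [J.actP_zero]
  rw [nhds_prod_eq, Filter.mem_prod_iff] at h2
  obtain ⟨U, hU, V, hV, hUV⟩ := h2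
  refine ⟨U, hU, fun L hLc hL f hf => ?_⟩
  obtain ⟨x, hx⟩ := exists_extP hJ hy L hLc hL f hf
  obtain ⟨r, hr, hrV⟩ : ∃ r : ℂ, r ≠ 0 ∧ r • x ∈ V := by
    have h3 : Continuous fun r : ℂ => r • x := by fun_prop
    have h4 : ∀ᶠ r : ℂ in 𝓝 0, r • x ∈ V := by
      have h5 := h3.continuousAt (x := (0 : ℂ))
      rw [ContinuousAt, zero_smul] at h5
      exact h5 hV
    obtain ⟨r, hr, hr0⟩ := ((h4.filter_mono nhdsWithin_le_nhds).and
      (self_mem_nhdsWithin (s := {(0 : ℂ)}ᶜ))).exists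
    exact ⟨r, hr0, hr⟩
  refine ⟨‖r‖⁻¹, fun c hcU hcL => ?_⟩
  have h6 : ‖g (J.actP c (r • x))‖ < 1 := hUV (Set.mk_mem_prod hcU hrV)
  rw [J.actP_smul, hx c hcL, map_smul, map_smul, hg, smul_eq_mul, smul_eq_mul, mul_one,
    norm_mul] at h6
  rw [inv_eq_one_div, le_div_iff₀ (norm_pos_iff.2 hr), mul_comm]
  exact h6.le

end Pool.Agent.Helper20.FA
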