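import Pool.Agent.Helper20.FG.Alg

/-!
# The definitions used in the statements on idempotents
-/

open Topology Filter

namespace Pool.Agent.Helper20.FA

universe u

section

variable {A : Type u} [NonUnitalRing A] [Module ℂ A] [IsScalarTower ℂ A A] [SMulCommClass ℂ A A]

/-- The right ideal `f A_+` for an idempotent `f`: the elements fixed by left multiplication by
`f`. -/
def fixP (f : ℂ × A) : Submodule ℂ (ℂ × A) where
  carrier := {z | mulP f z = z}
  add_mem' := by
    intro z w hz hw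
    show mulP f (z + w) = z + w
    rw [mulP_add, hz, hw]
  zero_mem' := by
    show mulP f 0 = 0
    exact map_zero (mulPL f)
  smul_mem' := by
    intro r z hz
    show mulP f (r • z) = r • z
    rw [mulP_smul, hz]

theorem mem_fixP {f z : ℂ × A} : z ∈ fixP f ↔ mulP f z = z := Iff.rfl

end

section

variable {A : Type u} [NonUnitalRing A] [Module ℂ A] [TopologicalSpace A]

/-- The `f i` are idempotents of `A_+` with sum `1`, and each neighbourhood of zero contains all
but finitely many of the right ideals `f i A_+`. -/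
structure Fam (f : ℕ → ℂ × A) : Prop where
  idem : ∀ i, mulP (f i) (f i) = f i
  small : ∀ U ∈ 𝓝 (0 : ℂ × A), ∃ n : ℕ, ∀ i, n ≤ i → ∀ z, mulP (f i) z ∈ U
  sum : Tendsto (fun n => ∑ i ∈ Finset.range n, f i) atTop (𝓝 (1, 0))

/-- `R` is a two-sided ideal and the products `r 1 * (r 2 * (... * (r n * c)))` of elements of
`R` tend to zero, uniformly. -/
def ProNilIdeal (R : Submodule ℂ A) : Prop :=
  (∀ a : A, ∀ r ∈ R, a * r ∈ R ∧ r * a ∈ R) ∧
    ∀ U ∈ 𝓝 (0 : A), ∃ n : ℕ, ∀ l : List A, l.length = n → (∀ r ∈ l, r ∈ R) →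
      ∀ c ∈ R, l.foldr (fun r z => r * z) c ∈ U

/-- `χ` is multiplicative and `f a - χ (a) f` is in `R` for all `a` in `A`. -/
def Adapted (R : Submodule ℂ A) (f : ℂ × A) (χ : A →L[ℂ] ℂ) : Prop :=
  (∀ a b, χ (a * b) = χ a * χ b) ∧ ∀ a : A, ∃ r ∈ R, mulP f (0, a) - χ a • f = (0, r)

/-- The continuous projection `π` has its range in `f A_+`, it differs from left multiplication
by `f` by elements of `R`, and it kills what left multiplication by `f` sends to `R`. -/
structure IsCompl (R : Submodule ℂ A) (f : ℂ × A) (π : (ℂ × A) →L[ℂ] (ℂ × A)) : Prop where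
  mul : ∀ z, mulP f (π z) = π z
  sub : ∀ z, ∃ r ∈ R, mulP f z - π z = (0, r)
  kill : ∀ z, (∃ r ∈ R, mulP f z = (0, r)) → π z = 0

/-- The range. -/
def rangeL (π : (ℂ × A) →L[ℂ] (ℂ × A)) : Submodule ℂ (ℂ × A) :=
  LinearMap.range (π : (ℂ × A) →ₗ[ℂ] (ℂ × A))

/-- `f A_+ ∩ R` has a normable topological complement in `f A_+`. -/
def NormableMod (R : Submodule ℂ A) (f : ℂ × A) : Prop :=
  ∃ π : (ℂ × A) →L[ℂ] (ℂ × A), IsCompl R f π ∧ Normable (rangeL π)

end

end Pool.Agent.Helper20.FA
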