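import Pool.Agent.Helper20.FG.Ext2
import Pool.Agent.Helper20.FG.Fam

/-!
# The necessary condition at an idempotent
-/

open Topology Filter

namespace Pool.Agent.Helper20.FA

universe u v

attribute [local instance] IsFrechet.tag IsFrechet.csm IsFrechet.lcs

theorem normable_of_bound {E : Type v} [AddCommGroup E] [Module ℂ E] [TopologicalSpace E]
    [IsTopologicalAddGroup E] {p : Seminorm ℂ E} (hp : Continuous p)
    (h : ∀ O ∈ 𝓝 (0 : E), ∃ r : ℝ, 0 < r ∧ ∀ x, p x < r → x ∈ O) : Normable E := by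
  refine ⟨p, ?_⟩
  rw [SeminormFamily.withSeminorms_iff_nhds_eq_iInf, iInf_const]
  refine le_antisymm ?_ ?_
  · rw [← Filter.tendsto_iff_comap]
    have h1 := hp.continuousAt (x := (0 : E))
    rwa [ContinuousAt, map_zero] at h1
  · intro O hO
    obtain ⟨r, hr, hrO⟩ := h O hO
    refine ⟨Metric.ball 0 r, Metric.ball_mem_nhds _ hr, fun x hx => hrO x ?_⟩
    have h4 : p x ∈ Metric.ball (0 : ℝ) r := hx
    rwa [Metric.mem_ball, Real.dist_0_eq_abs, abs_of_nonneg (apply_nonneg _ _)] at h4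

variable {A : Type u} [NonUnitalRing A] [Module ℂ A] [IsScalarTower ℂ A A] [SMulCommClass ℂ A A]
  [TopologicalSpace A] [IsFrechet A] [ContinuousMul A]

/-- The elements `r 1 * (r 2 * (... * (r n * c)))` with `r i` in `R` and `c` in `A_+`. -/
def prodsR (R : Submodule ℂ A) (n : ℕ) : Set (ℂ × A) :=
  {x | ∃ (l : List A) (c : ℂ × A), l.length = n ∧ (∀ r ∈ l, r ∈ R) ∧
    x = l.foldr (fun r z => mulP (0, r) z) c}

/-- The closed powers of `R`. -/
noncomputable def QR (R : Submodule ℂ A) (n : ℕ) : Submodule ℂ (ℂ × A) :=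
  (Submodule.span ℂ (prodsR R n)).topologicalClosure

theorem isClosed_QR (R : Submodule ℂ A) (n : ℕ) : IsClosed (QR R n : Set (ℂ × A)) :=
  Submodule.isClosed_topologicalClosure _

theorem prodsR_subset (R : Submodule ℂ A) (n : ℕ) : prodsR R n ⊆ QR R n := fun _ hx =>
  Submodule.le_topologicalClosure _ (Submodule.subset_span hx)

theorem mem_QR_zero (R : Submodule ℂ A) (c : ℂ × A) : c ∈ QR R 0 :=
  prodsR_subset R 0 ⟨[], c, rfl, by simp, rfl⟩

theorem QR_map {R : Submodule ℂ A} {m n : ℕ} (z : ℂ × A)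
    (h : ∀ x ∈ prodsR R m, mulP z x ∈ prodsR R n) {c : ℂ × A} (hc : c ∈ QR R m) :
    mulP z c ∈ QR R n := by
  refine map_mem_closure (f := fun x => mulP z x) (lmul z).continuous hc fun x hx => ?_
  have h2 : Submodule.span ℂ (prodsR R m) ≤
      (Submodule.span ℂ (prodsR R n)).comap (mulPL z) :=
    Submodule.span_le.2 fun x hx => Submodule.subset_span (h x hx)
  exact h2 hx

theorem mulR_mem {R : Submodule ℂ A} {n : ℕ} {r : A} (hr : r ∈ R) {c : ℂ × A}
    (hc : c ∈ QR R n) : mulP (0, r) c ∈ QR R (n + 1) := by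
  refine QR_map (0, r) ?_ hc
  rintro _ ⟨l, c, hl, hlR, rfl⟩
  refine ⟨r :: l, c, by rw [List.length_cons, hl], ?_, rfl⟩
  intro s hs
  rcases List.mem_cons.1 hs with rfl | hs
  · exact hr
  · exact hlR s hs

theorem QR_succ_le (R : Submodule ℂ A) (n : ℕ) : QR R (n + 1) ≤ QR R n := by
  refine Submodule.topologicalClosure_mono (Submodule.span_mono ?_)
  rintro _ ⟨l, c, hl, hlR, rfl⟩
  have h1 : l ≠ [] := by
    rintro rfl
    simp at hl
  refine ⟨l.dropLast, mulP (0, l.getLast h1) c, by simp [hl],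
    fun r hr => hlR r (List.mem_of_mem_dropLast hr), ?_⟩
  conv_lhs => rw [← List.dropLast_append_getLast h1]
  rw [List.foldr_append]
  rfl

theorem mul_mem_QR {R : Submodule ℂ A} (hR : ∀ a : A, ∀ r ∈ R, a * r ∈ R) (n : ℕ) (z : ℂ × A)
    {c : ℂ × A} (hc : c ∈ QR R n) : mulP z c ∈ QR R n := by
  refine QR_map z ?_ hc
  rintro _ ⟨l, c, hl, hlR, rfl⟩
  cases l with
  | nil => exact ⟨[], mulP z c, hl, by simp, rfl⟩
  | cons r l =>
    refine ⟨(z.1 • r + z.2 * r) :: l, c, hl, ?_, ?_⟩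
    · intro s hs
      rcases List.mem_cons.1 hs with rfl | hs
      · exact R.add_mem (R.smul_mem _ (hlR r (List.mem_cons_self ..)))
          (hR _ _ (hlR r (List.mem_cons_self ..)))
      · exact hlR s (List.mem_cons_of_mem _ hs)
    · rw [List.foldr_cons, List.foldr_cons, ← mulP_assoc]
      congr 1
      rw [mulP_def]
      simp

/-- A seminorm vanishes on a power of `R`. -/
theorem exists_vanish {R : Submodule ℂ A} (hR : ∀ a : A, ∀ r ∈ R, r * a ∈ R)
    (hpro : ∀ U ∈ 𝓝 (0 : A), ∃ n : ℕ, ∀ l : List A, l.length = n → (∀ r ∈ l, r ∈ R) →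
      ∀ c ∈ R, l.foldr (· * ·) c ∈ U) {v : Seminorm ℂ (ℂ × A)} (hv : Continuous v) :
    ∃ n : ℕ, ∀ x ∈ QR R n, v x = 0 := by
  have h1 : {x : A | v ((0 : ℂ), x) < 1} ∈ 𝓝 (0 : A) := by
    have h2 : Continuous fun x : A => v ((0 : ℂ), x) := hv.comp (by fun_prop)
    refine (isOpen_lt h2 continuous_const).mem_nhds ?_
    have h3 : ((0 : ℂ), (0 : A)) = 0 := rfl
    simp [h3]
  obtain ⟨n, hn⟩ := hpro _ h1
  have h4 : ∀ (l : List A) (s : A), l.foldr (fun r z => mulP (0, r) z) ((0 : ℂ), s) =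
      ((0 : ℂ), l.foldr (· * ·) s) := by
    intro l
    induction l with
    | nil => intro s; rfl
    | cons a l ih =>
      intro s
      rw [List.foldr_cons, ih, List.foldr_cons, mulP_def]
      simp
  have h5 : ∀ (l : List A) (t : ℂ) (s : A),
      t • l.foldr (· * ·) s = l.foldr (· * ·) (t • s) := by
    intro l
    induction l with
    | nil => intro t c; rfl
    | cons a l ih =>
      intro t c
      rw [List.foldr_cons, List.foldr_cons, ← ih, mul_smul_comm]
  have h6 : ∀ x ∈ prodsR R (n + 1), v x = 0 := by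
    rintro _ ⟨l, c, hl, hlR, rfl⟩
    have h1 : l ≠ [] := by
      rintro rfl
      simp at hl
    set s : A := c.1 • l.getLast h1 + l.getLast h1 * c.2 with hs
    have hlast : l.getLast h1 ∈ R := hlR _ (List.getLast_mem h1)
    have hsR : s ∈ R := R.add_mem (R.smul_mem _ hlast) (hR _ _ hlast)
    have h7 : l.foldr (fun r z => mulP (0, r) z) c = ((0 : ℂ), l.dropLast.foldr (· * ·) s) := by
      conv_lhs => rw [← List.dropLast_append_getLast h1]
      rw [List.foldr_append, ← h4]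
      congr 1
      rw [List.foldr_cons, List.foldr_nil, mulP_def, hs]
      simp
    rw [h7]
    have h8 : ∀ t : ℝ, 0 < t → t * v ((0 : ℂ), l.dropLast.foldr (· * ·) s) < 1 := by
      intro t ht
      have h9 : v ((0 : ℂ), l.dropLast.foldr (· * ·) ((t : ℂ) • s)) < 1 :=
        hn l.dropLast (by simp [hl]) (fun r hr => hlR r (List.mem_of_mem_dropLast hr)) _
          (R.smul_mem _ hsR)
      rw [← h5] at h9
      have h10 : ((0 : ℂ), (t : ℂ) • l.dropLast.foldr (· * ·) s) =
          (t : ℂ) • ((0 : ℂ), l.dropLast.foldr (· * ·) s) := by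
        rw [Prod.smul_mk, smul_zero]
      rwa [h10, map_smul_eq_mul, Complex.norm_real, Real.norm_of_nonneg ht.le] at h9
    by_contra h11
    have h12 : 0 < v ((0 : ℂ), l.dropLast.foldr (· * ·) s) :=
      lt_of_le_of_ne (apply_nonneg _ _) (Ne.symm h11)
    have h13 := h8 (1 / v ((0 : ℂ), l.dropLast.foldr (· * ·) s)) (by positivity)
    rw [one_div_mul_cancel h12.ne'] at h13
    exact lt_irrefl _ h13
  refine ⟨n + 1, ?_⟩
  let Z : Submodule ℂ (ℂ × A) :=
    { carrier := {c | v c = 0}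
      add_mem' := by
        intro a b ha hb
        refine le_antisymm ?_ (apply_nonneg _ _)
        refine (map_add_le_add v a b).trans ?_
        rw [ha, hb, add_zero]
      zero_mem' := map_zero v
      smul_mem' := by
        intro r a ha
        show v (r • a) = 0
        rw [map_smul_eq_mul, ha, mul_zero] }
  have hZ : QR R (n + 1) ≤ Z :=
    Submodule.topologicalClosure_minimal _ (Submodule.span_le.2 h6)
      (isClosed_eq hv continuous_const)
  exact fun x hx => hZ hx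

section

variable {f : ℂ × A} {χ : A → ℂ} {R : Submodule ℂ A}

theorem keyR (hfR : ∀ a : A, ∃ r ∈ R, mulP f (0, a) - χ a • f = (0, r)) (a : A) {n : ℕ}
    {z : ℂ × A} (hz : z ∈ QR R n) : mulP f (mulP (0, a) z - χ a • z) ∈ QR R (n + 1) := by
  obtain ⟨r, hr, hrf⟩ := hfR a
  have h1 : mulP f (mulP (0, a) z - χ a • z) = mulP (0, r) z := by
    rw [← hrf, sub_eq_add_neg, sub_eq_add_neg, mulP_add, add_mulP, ← mulP_assoc]
    congr 1
    rw [← neg_smul, ← neg_smul, mulP_smul, smul_mulP]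
  rw [h1]
  exact mulR_mem hr hz

/-- The step in the proof of normability. -/
theorem normR (hff : mulP f f = f) (hR : ∀ a : A, ∀ r ∈ R, a * r ∈ R)
    (hfR : ∀ a : A, ∃ r ∈ R, mulP f (0, a) - χ a • f = (0, r)) {U : Set (ℂ × A)}
    (hU : U ∈ 𝓝 (0 : ℂ × A)) (hG : GoodP χ U) (k : ℕ) :
    ∃ p : Seminorm ℂ (ℂ × A), Continuous p ∧ ∀ v : Seminorm ℂ (ℂ × A), Continuous v →
      ∃ C : ℝ, ∀ c, p c < 1 → ∃ j ∈ QR R k, v (mulP f c - mulP f j) ≤ C := by
  have hff' : ∀ z, mulP f (mulP f z) = mulP f z := fun z => by rw [← mulP_assoc, hff]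
  induction k with
  | zero =>
    refine ⟨0, continuous_const, fun v _ => ⟨0, fun c _ => ⟨c, mem_QR_zero R c, ?_⟩⟩⟩
    rw [sub_self, map_zero]
  | succ k ih =>
    obtain ⟨p, hp, hpv⟩ := ih
    obtain ⟨p1, hp1, hp1U⟩ := exists_seminorm hU
    let p2 : Seminorm ℂ (ℂ × A) := p1.comp (mulPL f)
    have hp2 : Continuous p2 := hp1.comp (lmul f).continuous
    refine ⟨p + p2, hp.add hp2, fun v hv => ?_⟩
    obtain ⟨C, hC⟩ := hpv (v + p1) (hv.add hp1)
    let w : Seminorm ℂ (ℂ × A) := v.comp (mulPL f)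
    have hw : ∀ x, w x = v (mulP f x) := fun x => rfl
    have hwc : Continuous w := hv.comp (lmul f).continuous
    obtain ⟨M, hM⟩ := wsq w (QR R (k + 1)) {b | b ∈ U ∧ b ∈ QR R k} (by
      rintro g ⟨D, hD⟩ hg
      have hgc : Continuous g := by
        refine continuous_of_continuousAt_zero g ?_
        rw [ContinuousAt, map_zero]
        refine squeeze_zero_norm hD ?_
        have h1 : Continuous fun x : ℂ × A => D * w x := continuous_const.mul hwc
        have h2 := h1.continuousAt (x := (0 : ℂ × A))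
        rwa [ContinuousAt, map_zero, mul_zero] at h2
      have hgf : ∀ x, g (mulP f x) = g x := by
        intro x
        have h1 := hD (mulP f x - x)
        have h2 : mulP f (mulP f x - x) = 0 := by
          rw [sub_eq_add_neg, mulP_add, hff', ← neg_one_smul ℂ x, mulP_smul, neg_one_smul,
            add_neg_cancel]
        rw [hw, h2, map_zero, mul_zero, norm_le_zero_iff, map_sub, sub_eq_zero] at h1
        exact h1
      obtain ⟨M, hM⟩ := hG (QR R k) (isClosed_QR R k)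
        (fun a c hc => mul_mem_QR hR k (0, a) hc) ⟨g, hgc⟩
        (fun a c hc => by
          have h1 := hg _ (keyR hfR a hc)
          rw [hgf, map_sub, map_smul, smul_eq_mul, sub_eq_zero] at h1
          exact h1)
      exact ⟨M, fun b hb => hM b hb.1 hb.2⟩)
    refine ⟨C + (|C| + 2) * M, fun c hc => ?_⟩
    have hc1 : p c + p2 c < 1 := hc
    have hpc := apply_nonneg p c
    have hp2c := apply_nonneg p2 c
    have hp2c' : p2 c = p1 (mulP f c) := rfl
    obtain ⟨j, hj, hjc⟩ := hC c (by linarith)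
    have hjc' : v (mulP f c - mulP f j) + p1 (mulP f c - mulP f j) ≤ C := hjc
    have hv0 := apply_nonneg v (mulP f c - mulP f j)
    have hp0 := apply_nonneg p1 (mulP f c - mulP f j)
    have hC0 := le_abs_self C
    have hC1 := abs_nonneg C
    have hs : (0 : ℝ) < |C| + 2 := by linarith
    have h3 : p1 (mulP f j) ≤ 1 + |C| := by
      have h4 : mulP f j = mulP f c - (mulP f c - mulP f j) := by abel
      calc p1 (mulP f j) = p1 (mulP f c - (mulP f c - mulP f j)) := by rw [← h4]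
        _ ≤ p1 (mulP f c) + p1 (mulP f c - mulP f j) := map_sub_le_add p1 _ _
        _ ≤ 1 + |C| := by linarith
    set s : ℂ := ((|C| + 2 : ℝ) : ℂ) with hsdef
    have hsn : ‖s‖ = |C| + 2 := by
      rw [hsdef, Complex.norm_real, Real.norm_of_nonneg hs.le]
    have hs0 : s ≠ 0 := by
      rw [← norm_pos_iff, hsn]
      exact hs
    have h5 : s⁻¹ • mulP f j ∈ U := by
      refine hp1U _ ?_
      rw [map_smul_eq_mul, norm_inv, hsn, inv_mul_lt_iff₀ hs]
      linarith
    obtain ⟨j', hj', hjj⟩ := hM (s⁻¹ • mulP f j)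
      ⟨h5, (QR R k).smul_mem _ (mul_mem_QR hR k f hj)⟩
    refine ⟨s • j', (QR R (k + 1)).smul_mem _ hj', ?_⟩
    have h6 : mulP f c - mulP f (s • j') =
        (mulP f c - mulP f j) + s • (mulP f (s⁻¹ • mulP f j - j')) := by
      rw [sub_eq_add_neg (s⁻¹ • mulP f j), mulP_add, ← neg_one_smul ℂ j', mulP_smul, mulP_smul,
        mulP_smul, hff', smul_add, smul_inv_smul₀ hs0, neg_one_smul, smul_neg]
      abel
    rw [h6]
    refine (map_add_le_add v _ _).trans ?_
    rw [map_smul_eq_mul, hsn]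
    have h7 : (|C| + 2) * v (mulP f (s⁻¹ • mulP f j - j')) ≤ (|C| + 2) * M := by
      gcongr
      exact hjj
    linarith

/-- The ideals stabilise after multiplication by `f`. -/
theorem stabR (hff : mulP f f = f) (hR : ∀ a : A, ∀ r ∈ R, a * r ∈ R)
    (hfR : ∀ a : A, ∃ r ∈ R, mulP f (0, a) - χ a • f = (0, r)) {U : Set (ℂ × A)}
    (hG : GoodP χ U) {p1 : Seminorm ℂ (ℂ × A)} (hp1U : ∀ x, p1 x < 1 → x ∈ U) {n : ℕ}
    (hn : ∀ c ∈ QR R n, p1 c = 0) (m : ℕ) {c : ℂ × A} (hc : c ∈ QR R n) :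
    mulP f c ∈ QR R (n + m) := by
  have hff' : ∀ z, mulP f (mulP f z) = mulP f z := fun z => by rw [← mulP_assoc, hff]
  have : IsFrechet (ℂ × A) := IsFrechet.prod
  induction m with
  | zero => exact mul_mem_QR hR n f hc
  | succ m ih =>
    by_contra hcn
    obtain ⟨g, hgc, hg0⟩ := exists_dual (QR R (n + (m + 1))) (isClosed_QR R _) hcn
    obtain ⟨M, hM⟩ := hG (QR R (n + m)) (isClosed_QR R _)
      (fun a c hc => mul_mem_QR hR _ (0, a) hc) (g.comp (lmul f))
      (fun a x hx => by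
        have h1 := hg0 _ (keyR hfR a hx)
        have h2 : mulP f (mulP (0, a) x - χ a • x) =
            mulP f (mulP (0, a) x) - χ a • mulP f x := by
          rw [sub_eq_add_neg, mulP_add, ← neg_smul, mulP_smul, neg_smul, ← sub_eq_add_neg]
        rw [h2, map_sub, map_smul, smul_eq_mul, sub_eq_zero] at h1
        exact h1)
    have h3 : (((|M| + 1 : ℝ) : ℂ) • mulP f c) ∈ U := by
      refine hp1U _ ?_
      rw [map_smul_eq_mul, hn _ (mul_mem_QR hR n f hc), mul_zero]
      exact one_pos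
    have h1 := hM _ h3 ((QR R (n + m)).smul_mem _ ih)
    have h4 : (g.comp (lmul f)) (((|M| + 1 : ℝ) : ℂ) • mulP f c) = ((|M| + 1 : ℝ) : ℂ) := by
      show g (mulP f (((|M| + 1 : ℝ) : ℂ) • mulP f c)) = _
      rw [mulP_smul, hff', map_smul, hgc, smul_eq_mul, mul_one]
    rw [h4, Complex.norm_real, Real.norm_of_nonneg (by positivity)] at h1
    linarith [le_abs_self M]

/-- The right ideal `f A_+` is normable. -/
theorem necR {J : FMod A} (hJ : Injective J) {y : J.X} (hy0 : y ≠ 0)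
    (hy : ∀ a, J.act a y = χ a • y) (hff : mulP f f = f)
    (hR : ∀ a : A, ∀ r ∈ R, a * r ∈ R ∧ r * a ∈ R)
    (hfR : ∀ a : A, ∃ r ∈ R, mulP f (0, a) - χ a • f = (0, r))
    (hpro : ∀ U ∈ 𝓝 (0 : A), ∃ n : ℕ, ∀ l : List A, l.length = n → (∀ r ∈ l, r ∈ R) →
      ∀ c ∈ R, l.foldr (· * ·) c ∈ U) : Normable (fixP f) := by
  have hR1 : ∀ a : A, ∀ r ∈ R, a * r ∈ R := fun a r hr => (hR a r hr).1
  have hR2 : ∀ a : A, ∀ r ∈ R, r * a ∈ R := fun a r hr => (hR a r hr).2
  have hA : IsFrechet A := inferInstance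
  have := hA.metr
  obtain ⟨U, hU, hG⟩ := boundP hJ hy0 hy
  obtain ⟨p1, hp1, hp1U⟩ := exists_seminorm hU
  obtain ⟨n, hn⟩ := exists_vanish hR2 hpro hp1
  have hanti : Antitone (QR R) := antitone_nat_of_succ_le (QR_succ_le R)
  have hQ : ∀ c ∈ QR R n, mulP f c = 0 := by
    intro c hc
    by_contra h0
    have h1 : ({mulP f c}ᶜ : Set (ℂ × A)) ∈ 𝓝 (0 : ℂ × A) :=
      isOpen_compl_singleton.mem_nhds (by simpa using Ne.symm h0)
    obtain ⟨v, hv, hvU⟩ := exists_seminorm h1
    obtain ⟨m, hm⟩ := exists_vanish hR2 hpro hv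
    have h2 := hm _ (hanti (Nat.le_add_left m n) (stabR hff hR1 hfR hG hp1U hn m hc))
    exact hvU (mulP f c) (by rw [h2]; exact one_pos) rfl
  obtain ⟨p, hp, hpv⟩ := normR hff hR1 hfR hU hG n
  refine normable_of_bound (p := p.comp (fixP f).subtype)
    (hp.comp continuous_subtype_val) fun O hO => ?_
  rw [nhds_subtype_eq_comap] at hO
  obtain ⟨O', hO', hOO⟩ := hO
  obtain ⟨v, hv, hvO⟩ := exists_seminorm (show O' ∈ 𝓝 (0 : ℂ × A) from hO')
  obtain ⟨C, hC⟩ := hpv v hv
  have hs : (0 : ℝ) < |C| + 1 := by positivity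
  refine ⟨(|C| + 1)⁻¹, by positivity, fun x hx => hOO (hvO _ ?_)⟩
  have h3 : p x.1 < (|C| + 1)⁻¹ := hx
  set s : ℂ := ((|C| + 1 : ℝ) : ℂ) with hsdef
  have hsn : ‖s‖ = |C| + 1 := by
    rw [hsdef, Complex.norm_real, Real.norm_of_nonneg hs.le]
  obtain ⟨j, hj, hjv⟩ := hC (s • x.1) (by
    rw [map_smul_eq_mul, hsn]
    rw [← lt_inv_mul_iff₀ hs, mul_one]
    exact h3)
  rw [hQ j hj, sub_zero, mulP_smul, map_smul_eq_mul, hsn] at hjv
  have h4 : mulP f x.1 = x.1 := x.2
  rw [h4] at hjv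
  by_contra h5
  push Not at h5
  have h6 : |C| + 1 ≤ (|C| + 1) * v x.1 := by nlinarith
  linarith [le_abs_self C]

end

end Pool.Agent.Helper20.FA
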