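import Pool.Agent.Helper20.FG.Ext3
import Pool.Agent.Helper20.FG.Final

/-!
# The necessary condition at an idempotent, with normable quotients
-/

open Topology Filter

namespace Pool.Agent.Helper20.FA

universe u v

attribute [local instance] IsFrechet.tag IsFrechet.csm IsFrechet.lcs

variable {A : Type u} [NonUnitalRing A] [Module ℂ A] [IsScalarTower ℂ A A] [SMulCommClass ℂ A A]
  [TopologicalSpace A] [IsFrechet A] [ContinuousMul A]

section

variable {R : Submodule ℂ A} {f : ℂ × A} {π : (ℂ × A) →L[ℂ] (ℂ × A)}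

theorem mulP_sub (x y z : ℂ × A) : mulP x (y - z) = mulP x y - mulP x z := by
  rw [sub_eq_add_neg, mulP_add, ← neg_one_smul ℂ z, mulP_smul, neg_one_smul, ← sub_eq_add_neg]

theorem sub_mulP (x y z : ℂ × A) : mulP (x - y) z = mulP x z - mulP y z := by
  rw [sub_eq_add_neg, add_mulP, ← neg_one_smul ℂ y, smul_mulP, neg_one_smul, ← sub_eq_add_neg]

theorem mulP_R (hR : ∀ a : A, ∀ r ∈ R, a * r ∈ R) (z : ℂ × A) {r : A} (hr : r ∈ R) :
    ∃ s ∈ R, mulP z (0, r) = (0, s) := by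
  refine ⟨z.1 • r + z.2 * r, R.add_mem (R.smul_mem _ hr) (hR _ _ hr), ?_⟩
  rw [mulP_def]
  simp

theorem R_mulP (hR : ∀ a : A, ∀ r ∈ R, r * a ∈ R) (z : ℂ × A) {r : A} (hr : r ∈ R) :
    ∃ s ∈ R, mulP (0, r) z = (0, s) := by
  refine ⟨z.1 • r + r * z.2, R.add_mem (R.smul_mem _ hr) (hR _ _ hr), ?_⟩
  rw [mulP_def]
  simp

theorem IsCompl.map_R (h : IsCompl R f π) (hR : ∀ a : A, ∀ r ∈ R, a * r ∈ R) {r : A}
    (hr : r ∈ R) : π (0, r) = 0 := h.kill _ (mulP_R hR f hr)

theorem IsCompl.map_mul (h : IsCompl R f π) (hff : mulP f f = f) (z : ℂ × A) :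
    π (mulP f z) = π z := by
  have h1 : π (mulP f z - z) = 0 := by
    refine h.kill _ ⟨0, R.zero_mem, ?_⟩
    rw [mulP_sub, ← mulP_assoc, hff, sub_self]
    rfl
  rwa [map_sub, sub_eq_zero] at h1

theorem IsCompl.idem (h : IsCompl R f π) (hff : mulP f f = f)
    (hR : ∀ a : A, ∀ r ∈ R, a * r ∈ R) (z : ℂ × A) : π (π z) = π z := by
  obtain ⟨r, hr, hrz⟩ := h.sub z
  have h1 : π (mulP f z - π z) = 0 := by
    rw [hrz]
    exact h.map_R hR hr
  rw [map_sub, h.map_mul hff, sub_eq_zero] at h1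
  exact h1.symm

theorem IsCompl.mem (h : IsCompl R f π) (hff : mulP f f = f)
    (hR : ∀ a : A, ∀ r ∈ R, a * r ∈ R) {w : ℂ × A} : w ∈ rangeL π ↔ π w = w := by
  constructor
  · rintro ⟨z, rfl⟩
    exact h.idem hff hR z
  · intro hw
    exact ⟨w, hw⟩

theorem IsCompl.isClosed (h : IsCompl R f π) (hff : mulP f f = f)
    (hR : ∀ a : A, ∀ r ∈ R, a * r ∈ R) : IsClosed (rangeL π : Set (ℂ × A)) := by
  have hA : IsFrechet A := inferInstance
  have := hA.metr
  have h1 : (rangeL π : Set (ℂ × A)) = {z | π z = z} := by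
    ext w
    exact h.mem hff hR
  rw [h1]
  exact isClosed_eq π.continuous continuous_id

theorem mem_rangeL (z : ℂ × A) : π z ∈ rangeL π := ⟨z, rfl⟩

/-- The quotient right module. -/
noncomputable def quotR (h : IsCompl R f π) (hff : mulP f f = f)
    (hR : ∀ a : A, ∀ r ∈ R, a * r ∈ R ∧ r * a ∈ R) (hn : Normable (rangeL π)) : RMod A where
  V := rangeL π
  fre := by
    have : IsFrechet (ℂ × A) := IsFrechet.prod
    exact IsFrechet.sub _ (h.isClosed hff fun a r hr => (hR a r hr).1)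
  r := LinearMap.mk₂ ℂ (fun a w => ⟨π (mulP w.1 (0, a)), mem_rangeL _⟩)
    (by
      intro a b z
      refine Subtype.ext ?_
      show π (mulP z.1 (0, a + b)) = π (mulP z.1 (0, a)) + π (mulP z.1 (0, b))
      rw [← map_add, ← mulP_add, Prod.mk_add_mk, add_zero])
    (by
      intro r a z
      refine Subtype.ext ?_
      show π (mulP z.1 (0, r • a)) = r • π (mulP z.1 (0, a))
      rw [← map_smul, ← mulP_smul, Prod.smul_mk, smul_zero])
    (by
      intro a z w
      refine Subtype.ext ?_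
      show π (mulP (z.1 + w.1) (0, a)) = π (mulP z.1 (0, a)) + π (mulP w.1 (0, a))
      rw [← map_add, ← add_mulP])
    (by
      intro r a z
      refine Subtype.ext ?_
      show π (mulP (r • z.1) (0, a)) = r • π (mulP z.1 (0, a))
      rw [← map_smul, ← smul_mulP])
  r_mul := by
    intro a b w
    refine Subtype.ext ?_
    show π (mulP w.1 (0, a * b)) = π (mulP (π (mulP w.1 (0, a))) (0, b))
    have h1 : mulP w.1 (0, a * b) = mulP (mulP w.1 (0, a)) (0, b) := by
      rw [mulP_assoc]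
      congr 1
      rw [mulP_def]
      simp
    have h2 : mulP f w.1 = w.1 := by
      have h3 : π w.1 = w.1 := (h.mem hff fun a r hr => (hR a r hr).1).1 w.2
      rw [← h3, h.mul]
    obtain ⟨r, hr, hrz⟩ := h.sub (mulP w.1 (0, a))
    rw [← mulP_assoc, h2] at hrz
    obtain ⟨s, hs, hsr⟩ := R_mulP (fun a r hr => (hR a r hr).2) (0, b) hr
    rw [h1, ← sub_eq_zero, ← map_sub, ← sub_mulP, hrz, hsr]
    exact h.map_R (fun a r hr => (hR a r hr).1) hs
  r_cont := by
    refine Continuous.subtype_mk ?_ _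
    exact π.continuous.comp (continuous_mulP.comp
      (by fun_prop : Continuous fun p : A × rangeL π => (p.2.1, ((0 : ℂ), p.1))))
  nrm := hn

/-- The linear map given by a functional. -/
noncomputable def tauL (π : (ℂ × A) →L[ℂ] (ℂ × A)) {E : Type u} [AddCommGroup E] [Module ℂ E]
    [TopologicalSpace E] [IsFrechet E] (h : (ℂ × A) →L[ℂ] ℂ) (x : E) :
    (ℂ × A) →L[ℂ] (rangeL π →L[ℂ] E) :=
  let B : (ℂ × A) →ₗ[ℂ] (rangeL π →L[ℂ] E) :=
    { toFun := fun z =>
        { toFun := fun w => h (mulP w.1 z) • x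
          map_add' := fun w w' => by
            show h (mulP (w.1 + w'.1) z) • x = h (mulP w.1 z) • x + h (mulP w'.1 z) • x
            rw [add_mulP, map_add, add_smul]
          map_smul' := fun r w => by
            show h (mulP (r • w.1) z) • x = r • h (mulP w.1 z) • x
            rw [smul_mulP, map_smul, smul_eq_mul, mul_smul]
          cont := by
            have h1 : Continuous fun w : rangeL π => mulP w.1 z :=
              continuous_mulP.comp
                (by fun_prop : Continuous fun w : rangeL π => (w.1, z))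
            exact (h.continuous.comp h1).smul continuous_const }
      map_add' := fun z z' => ContinuousLinearMap.ext fun w => by
        show h (mulP w.1 (z + z')) • x = h (mulP w.1 z) • x + h (mulP w.1 z') • x
        rw [mulP_add, map_add, add_smul]
      map_smul' := fun r z => ContinuousLinearMap.ext fun w => by
        show h (mulP w.1 (r • z)) • x = r • h (mulP w.1 z) • x
        rw [mulP_smul, map_smul, smul_eq_mul, mul_smul] }
  ⟨B, ContinuousLinearMap.continuous_of_continuous_uncurry B (by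
    have h1 : Continuous fun p : (ℂ × A) × rangeL π => mulP p.2.1 p.1 :=
      continuous_mulP.comp
        (by fun_prop : Continuous fun p : (ℂ × A) × rangeL π => (p.2.1, p.1))
    exact (h.continuous.comp h1).smul continuous_const)⟩

theorem tauL_apply {E : Type u} [AddCommGroup E] [Module ℂ E]
    [TopologicalSpace E] [IsFrechet E] (h : (ℂ × A) →L[ℂ] ℂ) (x : E) (z : ℂ × A)
    (w : rangeL π) : tauL π h x z w = h (mulP w.1 z) • x := rfl

/-- The property of a neighbourhood of zero. -/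
def GoodF (R : Submodule ℂ A) (f : ℂ × A) (U : Set (ℂ × A)) : Prop :=
  ∀ L : Submodule ℂ (ℂ × A), IsClosed (L : Set (ℂ × A)) →
      (∀ a : A, ∀ c ∈ L, mulP (0, a) c ∈ L) → ∀ h : (ℂ × A) →L[ℂ] ℂ,
        (∀ r ∈ R, ∀ c ∈ L, h (mulP f (mulP (0, r) c)) = 0) →
          ∃ M : ℝ, ∀ c ∈ U, c ∈ L → ‖h (mulP f c)‖ ≤ M

/-- The uniform bound. -/
theorem boundF (hc : IsCompl R f π) (hff : mulP f f = f)
    (hR : ∀ a : A, ∀ r ∈ R, a * r ∈ R ∧ r * a ∈ R) (hn : Normable (rangeL π))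
    {X : FMod A} {x : X.X} (hx : x ≠ 0)
    (hX : HasInjectiveCoresolution (CofR (quotR hc hff hR hn) X)) :
    ∃ U ∈ 𝓝 (0 : ℂ × A), GoodF R f U := by
  obtain ⟨J, hJ, e, s, he, hs⟩ : ∃ J : FMod A, Injective J ∧
      ∃ (e : (CofR (quotR hc hff hR hn) X).X →L[ℂ] J.X)
        (s : J.X →L[ℂ] (CofR (quotR hc hff hR hn) X).X),
        IsHom (CofR (quotR hc hff hR hn) X) J e ∧ ∀ x, s (e x) = x := by
    obtain ⟨J0, hJ0, e, d, he, -, -, -, s, -, hs, -⟩ := hX
    exact ⟨J0 0, hJ0 0, e, s, he, hs⟩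
  have := X.fre.metr
  obtain ⟨ℓ, hℓ, -⟩ := exists_dual (⊥ : Submodule ℂ X.X) isClosed_singleton (x := x)
    (by simpa using hx)
  let w0 : rangeL π := ⟨π (1, 0), mem_rangeL _⟩
  let e' : (rangeL π →L[ℂ] X.X) →L[ℂ] J.X := e
  let s' : J.X →L[ℂ] (rangeL π →L[ℂ] X.X) := s
  have hs' : ∀ φ, s' (e' φ) = φ := hs
  let evw : (rangeL π →L[ℂ] X.X) →L[ℂ] X.X :=
    { toFun := fun φ => φ w0
      map_add' := fun _ _ => rfl
      map_smul' := fun _ _ => rfl
      cont := continuous_eval_const _ }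
  let g : J.X →L[ℂ] ℂ := (ℓ.comp evw).comp s'
  have hg : ∀ φ, g (e' φ) = ℓ (φ w0) := by
    intro φ
    show ℓ ((s' (e' φ)) w0) = _
    rw [hs']
  have h1 : Continuous fun p : (ℂ × A) × J.X => ‖g (J.actP p.1 p.2)‖ :=
    (g.continuous.comp J.continuous_actP).norm
  have h2 : {p : (ℂ × A) × J.X | ‖g (J.actP p.1 p.2)‖ < 1} ∈ 𝓝 ((0 : ℂ × A), (0 : J.X)) := by
    refine (isOpen_lt h1 continuous_const).mem_nhds ?_
    simp [J.actP_zero]
  rw [nhds_prod_eq, Filter.mem_prod_iff] at h2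
  obtain ⟨U, hU, V, hV, hUV⟩ := h2
  refine ⟨U, hU, fun L hLc hL h hh => ?_⟩
  -- elements of `R` that are fixed by `f`
  have hfix : ∀ {r : A}, r ∈ R → mulP f (0, r) = (0, r) → ∀ c ∈ L, h (mulP (0, r) c) = 0 := by
    intro r hr hfr c hc
    have h3 := hh r hr c hc
    rwa [← mulP_assoc, hfr] at h3
  have hR1 : ∀ a : A, ∀ r ∈ R, a * r ∈ R := fun a r hr => (hR a r hr).1
  have hdiff : ∀ z : ℂ × A, ∀ r : A, mulP f z - π z = (0, r) → mulP f (0, r) = (0, r) := by
    intro z r hrz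
    rw [← hrz, mulP_sub, ← mulP_assoc, hff, hc.mul]
  obtain ⟨y, hy⟩ := exists_extT hJ L hLc hL (e'.comp (tauL π h x)) (by
    intro a c hcL
    show e' (tauL π h x (mulP (0, a) c)) = J.act a (e' (tauL π h x c))
    have h3 : tauL π h x (mulP (0, a) c) =
        actR (quotR hc hff hR hn) X.X a (tauL π h x c) := by
      refine ContinuousLinearMap.ext fun w => ?_
      show h (mulP w.1 (mulP (0, a) c)) • x = h (mulP (π (mulP w.1 (0, a))) c) • x
      congr 1
      have h4 : mulP f w.1 = w.1 := by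
        have h5 : π w.1 = w.1 := (hc.mem hff hR1).1 w.2
        rw [← h5, hc.mul]
      obtain ⟨r, hr, hrz⟩ := hc.sub (mulP w.1 (0, a))
      have h6 := hdiff _ r hrz
      rw [← mulP_assoc, h4] at hrz
      rw [← mulP_assoc, ← sub_eq_zero, ← map_sub, ← sub_mulP, hrz]
      exact hfix hr h6 c hcL
    rw [h3]
    exact he a (tauL π h x c))
  have hval : ∀ c ∈ L, g (J.actP c y) = h (mulP f c) := by
    intro c hcL
    rw [hy c hcL]
    show g (e' (tauL π h x c)) = _
    rw [hg, tauL_apply, map_smul, hℓ, smul_eq_mul, mul_one]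
    obtain ⟨r, hr, hrz⟩ := hc.sub (1, 0)
    have h6 := hdiff _ r hrz
    rw [mulP_one] at hrz
    have h7 : h (mulP f c) - h (mulP (π (1, 0)) c) = 0 := by
      rw [← map_sub, ← sub_mulP, hrz]
      exact hfix hr h6 c hcL
    exact (sub_eq_zero.1 h7).symm
  obtain ⟨t, ht, htV⟩ : ∃ t : ℂ, t ≠ 0 ∧ t • y ∈ V := by
    have h3 : Continuous fun t : ℂ => t • y := by fun_prop
    have h4 : ∀ᶠ t : ℂ in 𝓝 0, t • y ∈ V := by
      have h5 := h3.continuousAt (x := (0 : ℂ))
      rw [ContinuousAt, zero_smul] at h5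
      exact h5 hV
    obtain ⟨t, ht, ht0⟩ := ((h4.filter_mono nhdsWithin_le_nhds).and
      (self_mem_nhdsWithin (s := {(0 : ℂ)}ᶜ))).exists
    exact ⟨t, ht0, ht⟩
  refine ⟨‖t‖⁻¹, fun c hcU hcL => ?_⟩
  have h6 : ‖g (J.actP c (t • y))‖ < 1 := hUV (Set.mk_mem_prod hcU htV)
  rw [J.actP_smul, map_smul, hval c hcL, smul_eq_mul, norm_mul] at h6
  rw [inv_eq_one_div, le_div_iff₀ (norm_pos_iff.2 ht), mul_comm]
  exact h6.le

theorem keyF {n : ℕ} {r : A} (hr : r ∈ R) {z : ℂ × A} (hz : z ∈ QR R n)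
    (hR : ∀ a : A, ∀ r ∈ R, a * r ∈ R) : mulP f (mulP (0, r) z) ∈ QR R (n + 1) :=
  mul_mem_QR hR _ f (mulR_mem hr hz)

/-- The step in the proof of normability. -/
theorem normF (hff : mulP f f = f) (hR : ∀ a : A, ∀ r ∈ R, a * r ∈ R) {U : Set (ℂ × A)}
    (hU : U ∈ 𝓝 (0 : ℂ × A)) (hG : GoodF R f U) (k : ℕ) :
    ∃ p : Seminorm ℂ (ℂ × A), Continuous p ∧ ∀ v : Seminorm ℂ (ℂ × A), Continuous v →
      ∃ C : ℝ, ∀ c, p c < 1 → ∃ j ∈ QR R k, v (mulP f c - mulP f j) ≤ C := by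
  have hff' : ∀ z, mulP f (mulP f z) = mulP f z := fun z => by rw [← mulP_assoc, hff]
  induction k with
  | zero =>
    refine ⟨0, continuous_const, fun v _ => ⟨0, fun c _ => ⟨c, mem_QR_zero R c, ?_⟩⟩⟩
    rw [sub_self, map_zero]
  | succ k ih =>
    obtain ⟨p, hp, hpv⟩ := ih
    obtain ⟨p1, hp1, hp1U⟩ := exists_seminorm hU
    let p2 : Seminorm ℂ (ℂ × A) := p1.comp (mulPL f)
    have hp2 : Continuous p2 := hp1.comp (lmul f).continuous
    refine ⟨p + p2, hp.add hp2, fun v hv => ?_⟩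
    obtain ⟨C, hC⟩ := hpv (v + p1) (hv.add hp1)
    let w : Seminorm ℂ (ℂ × A) := v.comp (mulPL f)
    have hw : ∀ x, w x = v (mulP f x) := fun x => rfl
    have hwc : Continuous w := hv.comp (lmul f).continuous
    obtain ⟨M, hM⟩ := wsq w (QR R (k + 1)) {b | b ∈ U ∧ b ∈ QR R k} (by
      rintro g ⟨D, hD⟩ hg
      have hgc : Continuous g := by
        refine continuous_of_continuousAt_zero g ?_
        rw [ContinuousAt, map_zero]
        refine squeeze_zero_norm hD ?_
        have h1 : Continuous fun x : ℂ × A => D * w x := continuous_const.mul hwc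
        have h2 := h1.continuousAt (x := (0 : ℂ × A))
        rwa [ContinuousAt, map_zero, mul_zero] at h2
      have hgf : ∀ x, g (mulP f x) = g x := by
        intro x
        have h1 := hD (mulP f x - x)
        have h2 : mulP f (mulP f x - x) = 0 := by
          rw [mulP_sub, hff', sub_self]
        rw [hw, h2, map_zero, mul_zero, norm_le_zero_iff, map_sub, sub_eq_zero] at h1
        exact h1
      obtain ⟨M, hM⟩ := hG (QR R k) (isClosed_QR R k)
        (fun a c hc => mul_mem_QR hR k (0, a) hc) ⟨g, hgc⟩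
        (fun r hr c hc => hg _ (keyF hr hc hR))
      refine ⟨M, fun b hb => ?_⟩
      have h3 : ‖g (mulP f b)‖ ≤ M := hM b hb.1 hb.2
      rwa [hgf] at h3)
    refine ⟨C + (|C| + 2) * M, fun c hc => ?_⟩
    have hc1 : p c + p2 c < 1 := hc
    have hpc := apply_nonneg p c
    have hp2c := apply_nonneg p2 c
    have hp2c' : p2 c = p1 (mulP f c) := rfl
    obtain ⟨j, hj, hjc⟩ := hC c (by linarith)
    have hjc' : v (mulP f c - mulP f j) + p1 (mulP f c - mulP f j) ≤ C := hjc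
    have hv0 := apply_nonneg v (mulP f c - mulP f j)
    have hp0 := apply_nonneg p1 (mulP f c - mulP f j)
    have hC0 := le_abs_self C
    have hC1 := abs_nonneg C
    have hs : (0 : ℝ) < |C| + 2 := by linarith
    have h3 : p1 (mulP f j) ≤ 1 + |C| := by
      have h4 : mulP f j = mulP f c - (mulP f c - mulP f j) := by abel
      calc p1 (mulP f j) = p1 (mulP f c - (mulP f c - mulP f j)) := by rw [← h4]
        _ ≤ p1 (mulP f c) + p1 (mulP f c - mulP f j) := map_sub_le_add p1 _ _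
        _ ≤ 1 + |C| := by linarith
    set s : ℂ := ((|C| + 2 : ℝ) : ℂ) with hsdef
    have hsn : ‖s‖ = |C| + 2 := by
      rw [hsdef, Complex.norm_real, Real.norm_of_nonneg hs.le]
    have hs0 : s ≠ 0 := by
      rw [← norm_pos_iff, hsn]
      exact hs
    have h5 : s⁻¹ • mulP f j ∈ U := by
      refine hp1U _ ?_
      rw [map_smul_eq_mul, norm_inv, hsn, inv_mul_lt_iff₀ hs]
      linarith
    obtain ⟨j', hj', hjj⟩ := hM (s⁻¹ • mulP f j)
      ⟨h5, (QR R k).smul_mem _ (mul_mem_QR hR k f hj)⟩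
    refine ⟨s • j', (QR R (k + 1)).smul_mem _ hj', ?_⟩
    have h6 : mulP f c - mulP f (s • j') =
        (mulP f c - mulP f j) + s • (mulP f (s⁻¹ • mulP f j - j')) := by
      rw [mulP_sub, mulP_smul, mulP_smul, hff', smul_sub, smul_inv_smul₀ hs0]
      abel
    rw [h6]
    refine (map_add_le_add v _ _).trans ?_
    rw [map_smul_eq_mul, hsn]
    have h7 : (|C| + 2) * v (mulP f (s⁻¹ • mulP f j - j')) ≤ (|C| + 2) * M := by
      gcongr
      exact hjj
    linarith

/-- The ideals stabilise after multiplication by `f`. -/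
theorem stabF (hff : mulP f f = f) (hR : ∀ a : A, ∀ r ∈ R, a * r ∈ R) {U : Set (ℂ × A)}
    (hG : GoodF R f U) {p1 : Seminorm ℂ (ℂ × A)} (hp1U : ∀ x, p1 x < 1 → x ∈ U) {n : ℕ}
    (hn : ∀ c ∈ QR R n, p1 c = 0) (m : ℕ) {c : ℂ × A} (hc : c ∈ QR R n) :
    mulP f c ∈ QR R (n + m) := by
  have hff' : ∀ z, mulP f (mulP f z) = mulP f z := fun z => by rw [← mulP_assoc, hff]
  have : IsFrechet (ℂ × A) := IsFrechet.prod
  induction m with
  | zero => exact mul_mem_QR hR n f hc
  | succ m ih =>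
    by_contra hcn
    obtain ⟨g, hgc, hg0⟩ := exists_dual (QR R (n + (m + 1))) (isClosed_QR R _) hcn
    obtain ⟨M, hM⟩ := hG (QR R (n + m)) (isClosed_QR R _)
      (fun a c hc => mul_mem_QR hR _ (0, a) hc) g
      (fun r hr x hx => hg0 _ (keyF hr hx hR))
    have h3 : (((|M| + 1 : ℝ) : ℂ) • mulP f c) ∈ U := by
      refine hp1U _ ?_
      rw [map_smul_eq_mul, hn _ (mul_mem_QR hR n f hc), mul_zero]
      exact one_pos
    have h1 := hM _ h3 ((QR R (n + m)).smul_mem _ ih)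
    rw [mulP_smul, hff', map_smul, hgc, smul_eq_mul, mul_one, Complex.norm_real,
      Real.norm_of_nonneg (by positivity)] at h1
    linarith [le_abs_self M]

/-- The right ideal `f A_+` is normable. -/
theorem necF (hff : mulP f f = f) (hR : ∀ a : A, ∀ r ∈ R, a * r ∈ R ∧ r * a ∈ R)
    {U : Set (ℂ × A)} (hU : U ∈ 𝓝 (0 : ℂ × A)) (hG : GoodF R f U)
    (hpro : ∀ U ∈ 𝓝 (0 : A), ∃ n : ℕ, ∀ l : List A, l.length = n → (∀ r ∈ l, r ∈ R) →
      ∀ c ∈ R, l.foldr (· * ·) c ∈ U) : Normable (fixP f) := by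
  have hR1 : ∀ a : A, ∀ r ∈ R, a * r ∈ R := fun a r hr => (hR a r hr).1
  have hR2 : ∀ a : A, ∀ r ∈ R, r * a ∈ R := fun a r hr => (hR a r hr).2
  have hA : IsFrechet A := inferInstance
  have := hA.metr
  obtain ⟨p1, hp1, hp1U⟩ := exists_seminorm hU
  obtain ⟨n, hn⟩ := exists_vanish hR2 hpro hp1
  have hanti : Antitone (QR R) := antitone_nat_of_succ_le (QR_succ_le R)
  have hQ : ∀ c ∈ QR R n, mulP f c = 0 := by
    intro c hc
    by_contra h0
    have h1 : ({mulP f c}ᶜ : Set (ℂ × A)) ∈ 𝓝 (0 : ℂ × A) :=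
      isOpen_compl_singleton.mem_nhds (by simpa using Ne.symm h0)
    obtain ⟨v, hv, hvU⟩ := exists_seminorm h1
    obtain ⟨m, hm⟩ := exists_vanish hR2 hpro hv
    have h2 := hm _ (hanti (Nat.le_add_left m n) (stabF hff hR1 hG hp1U hn m hc))
    exact hvU (mulP f c) (by rw [h2]; exact one_pos) rfl
  obtain ⟨p, hp, hpv⟩ := normF hff hR1 hU hG n
  refine normable_of_bound (p := p.comp (fixP f).subtype)
    (hp.comp continuous_subtype_val) fun O hO => ?_
  rw [nhds_subtype_eq_comap] at hO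
  obtain ⟨O', hO', hOO⟩ := hO
  obtain ⟨v, hv, hvO⟩ := exists_seminorm (show O' ∈ 𝓝 (0 : ℂ × A) from hO')
  obtain ⟨C, hC⟩ := hpv v hv
  have hs : (0 : ℝ) < |C| + 1 := by positivity
  refine ⟨(|C| + 1)⁻¹, by positivity, fun x hx => hOO (hvO _ ?_)⟩
  have h3 : p x.1 < (|C| + 1)⁻¹ := hx
  set s : ℂ := ((|C| + 1 : ℝ) : ℂ) with hsdef
  have hsn : ‖s‖ = |C| + 1 := by
    rw [hsdef, Complex.norm_real, Real.norm_of_nonneg hs.le]
  obtain ⟨j, hj, hjv⟩ := hC (s • x.1) (by
    rw [map_smul_eq_mul, hsn]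
    rw [← lt_inv_mul_iff₀ hs, mul_one]
    exact h3)
  rw [hQ j hj, sub_zero, mulP_smul, map_smul_eq_mul, hsn] at hjv
  have h4 : mulP f x.1 = x.1 := x.2
  rw [h4] at hjv
  by_contra h5
  push Not at h5
  have h6 : |C| + 1 ≤ (|C| + 1) * v x.1 := by nlinarith
  linarith [le_abs_self C]

end

/-- The main theorem. -/
theorem main_mod {f : ℕ → ℂ × A} (hf : Fam f) {R : Submodule ℂ A} (hR : ProNilIdeal R)
    (hn : ∀ i, NormableMod R (f i)) :
    (∀ X : FMod A, HasCores X) ↔ ∀ i, Normable (fixP (f i)) := by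
  constructor
  · intro h i
    obtain ⟨π, hc, hπ⟩ := hn i
    obtain ⟨X, x, hx, -⟩ := exists_chiM (A := A) (0 : A →L[ℂ] ℂ) (fun _ _ => by simp)
    obtain ⟨U, hU, hG⟩ := boundF hc (hf.idem i) hR.1 hπ hx
      ((hasCores_iff _).1 (h (CofR (quotR hc (hf.idem i) hR.1 hπ) X)))
    exact necF (hf.idem i) hR.1 hU hG hR.2
  · exact fun h X => (hasCores_iff X).2 (hf.hasInjectiveCoresolution h X)

end Pool.Agent.Helper20.FA
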