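import Pool.Agent.Helper20.FG.Enough
import Pool.Agent.Helper20.FG.Nec
import Pool.Agent.Helper20.FA.Example

/-!
# Enough injectives when the unitization is a product of normable right ideals
-/

open Topology Filter Pointwise

namespace Pool.Agent.Helper20.FA

universe u v

attribute [local instance] IsFrechet.tag IsFrechet.csm IsFrechet.lcs

/-- Closed subspaces of Fréchet spaces. -/
theorem IsFrechet.sub {E : Type v} [AddCommGroup E] [Module ℂ E] [TopologicalSpace E]
    [hE : IsFrechet E] (N : Submodule ℂ E) (hN : IsClosed (N : Set E)) : IsFrechet N := by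
  have := hE.metr
  refine ⟨inferInstance, inferInstance, ?_, Topology.IsEmbedding.subtypeVal.metrizableSpace, ?_⟩
  · exact inferInstanceAs (LocallyConvexSpace ℝ (N.restrictScalars ℝ))
  · let : UniformSpace E := IsTopologicalAddGroup.rightUniformSpace E
    have : IsUniformAddGroup E := isUniformAddGroup_of_addCommGroup
    have : CompleteSpace E := hE.complete
    have : IsUniformAddGroup N := inferInstanceAs (IsUniformAddGroup N.toAddSubgroup)
    have h1 : IsTopologicalAddGroup.rightUniformSpace N = instUniformSpaceSubtype :=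
      IsUniformAddGroup.rightUniformSpace_eq
    rw [h1]
    exact hN.completeSpace_coe

variable {A : Type u} [NonUnitalRing A] [Module ℂ A] [IsScalarTower ℂ A A] [SMulCommClass ℂ A A]
  [TopologicalSpace A] [IsFrechet A] [ContinuousMul A]

theorem isClosed_fixP (f : ℂ × A) : IsClosed (fixP f : Set (ℂ × A)) := by
  have hA : IsFrechet A := inferInstance
  have := hA.metr
  exact isClosed_eq (lmul f).continuous continuous_id

theorem mulP_mem_fixP {f z : ℂ × A} (hz : z ∈ fixP f) (w : ℂ × A) : mulP z w ∈ fixP f := by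
  rw [mem_fixP] at hz ⊢
  rw [← mulP_assoc, hz]

/-- The right module `f A_+`. -/
noncomputable def fixR (f : ℂ × A) (hf : Normable (fixP f)) : RMod A where
  V := fixP f
  fre := by
    have : IsFrechet (ℂ × A) := IsFrechet.prod
    exact IsFrechet.sub _ (isClosed_fixP f)
  r := LinearMap.mk₂ ℂ (fun a z => ⟨mulP z.1 (0, a), mulP_mem_fixP z.2 _⟩)
    (by
      intro a b z
      refine Subtype.ext ?_
      show mulP z.1 (0, a + b) = mulP z.1 (0, a) + mulP z.1 (0, b)
      rw [← mulP_add, Prod.mk_add_mk, add_zero])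
    (by
      intro r a z
      refine Subtype.ext ?_
      show mulP z.1 (0, r • a) = r • mulP z.1 (0, a)
      rw [← mulP_smul, Prod.smul_mk, smul_zero])
    (by
      intro a z w
      refine Subtype.ext ?_
      show mulP (z.1 + w.1) (0, a) = mulP z.1 (0, a) + mulP w.1 (0, a)
      rw [← add_mulP])
    (by
      intro r a z
      refine Subtype.ext ?_
      show mulP (r • z.1) (0, a) = r • mulP z.1 (0, a)
      rw [← smul_mulP])
  r_mul := by
    intro a b z
    refine Subtype.ext ?_
    show mulP z.1 (0, a * b) = mulP (mulP z.1 (0, a)) (0, b)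
    rw [mulP_assoc]
    congr 1
    rw [mulP_def]
    simp
  r_cont := by
    refine Continuous.subtype_mk ?_ _
    exact continuous_mulP.comp
      (by fun_prop : Continuous fun p : A × fixP f => (p.2.1, ((0 : ℂ), p.1)))
  nrm := hf

/-- The pairing. -/
noncomputable def etaV (f : ℂ × A) (X : FMod A) : X.X →L[ℂ] (fixP f →L[ℂ] X.X) :=
  let B : X.X →ₗ[ℂ] (fixP f →L[ℂ] X.X) :=
    { toFun := fun x =>
        { toFun := fun z => X.actP z.1 x
          map_add' := fun z w => X.add_actP z.1 w.1 x
          map_smul' := fun r z => X.smul_actP r z.1 x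
          cont := X.continuous_actP.comp
            (by fun_prop : Continuous fun z : fixP f => (z.1, x)) }
      map_add' := fun x y => ContinuousLinearMap.ext fun z => X.actP_add z.1 x y
      map_smul' := fun r x => ContinuousLinearMap.ext fun z => X.actP_smul z.1 r x }
  ⟨B, ContinuousLinearMap.continuous_of_continuous_uncurry B
    (X.continuous_actP.comp
      (by fun_prop : Continuous fun p : X.X × fixP f => (p.2.1, p.1)))⟩

theorem etaV_apply (f : ℂ × A) (X : FMod A) (x : X.X) (z : fixP f) :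
    etaV f X x z = X.actP z.1 x := rfl

theorem act_eq_actP (X : FMod A) (a : A) (x : X.X) : X.act a x = X.actP (0, a) x := by
  rw [X.actP_def, zero_smul, zero_add]

section

variable {f : ℕ → ℂ × A}

theorem Fam.small_act (hf : Fam f) (X : FMod A) {q : Seminorm ℂ X.X} (hq : Continuous q) :
    ∃ n : ℕ, ∀ i, n ≤ i → ∀ x, q (X.actP (f i) x) = 0 := by
  have h1 : Continuous fun p : (ℂ × A) × X.X => q (X.actP p.1 p.2) :=
    hq.comp X.continuous_actP
  have h2 : {p : (ℂ × A) × X.X | q (X.actP p.1 p.2) < 1} ∈ 𝓝 ((0 : ℂ × A), (0 : X.X)) := by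
    refine (isOpen_lt h1 continuous_const).mem_nhds ?_
    simp [X.actP_zero]
  rw [nhds_prod_eq, Filter.mem_prod_iff] at h2
  obtain ⟨U, hU, V, hV, hUV⟩ := h2
  obtain ⟨n, hn⟩ := hf.small U hU
  refine ⟨n, fun i hi x => ?_⟩
  obtain ⟨r, hr, hrV⟩ : ∃ r : ℂ, r ≠ 0 ∧ r • x ∈ V := by
    have h3 : Continuous fun r : ℂ => r • x := by fun_prop
    have h4 : ∀ᶠ r : ℂ in 𝓝 0, r • x ∈ V := by
      have h5 := h3.continuousAt (x := (0 : ℂ))
      rw [ContinuousAt, zero_smul] at h5
      exact h5 hV
    obtain ⟨r, hr, hr0⟩ := ((h4.filter_mono nhdsWithin_le_nhds).and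
      (self_mem_nhdsWithin (s := {(0 : ℂ)}ᶜ))).exists
    exact ⟨r, hr0, hr⟩
  by_contra h6
  have h7 : 0 < q (X.actP (f i) x) := lt_of_le_of_ne (apply_nonneg _ _) (Ne.symm h6)
  have hr' : 0 < ‖r‖ := norm_pos_iff.2 hr
  set t : ℂ := (((‖r‖ * q (X.actP (f i) x))⁻¹ : ℝ) : ℂ) with ht
  have htn : ‖t‖ = (‖r‖ * q (X.actP (f i) x))⁻¹ := by
    rw [ht, Complex.norm_real, Real.norm_of_nonneg (by positivity)]
  have h8 : t • f i ∈ U := by
    have h9 := hn i hi (t • (1, 0))
    rwa [mulP_smul, mulP_one] at h9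
  have h10 : q (X.actP (t • f i) (r • x)) < 1 := hUV (Set.mk_mem_prod h8 hrV)
  rw [X.smul_actP, X.actP_smul, map_smul_eq_mul, map_smul_eq_mul, htn, ← mul_assoc,
    mul_inv, mul_assoc, mul_assoc] at h10
  have h11 : ‖r‖⁻¹ * ((q (X.actP (f i) x))⁻¹ * (‖r‖ * q (X.actP (f i) x))) = 1 := by
    field_simp
  rw [h11] at h10
  exact lt_irrefl _ h10

theorem Fam.summable (hf : Fam f) (X : FMod A) (y : ℕ → X.X) :
    Summable fun i => X.actP (f i) (y i) := by
  let : UniformSpace X.X := IsTopologicalAddGroup.rightUniformSpace X.X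
  have : IsUniformAddGroup X.X := isUniformAddGroup_of_addCommGroup
  have : CompleteSpace X.X := X.fre.complete
  rw [summable_iff_vanishing]
  intro e he
  obtain ⟨q, hq, hqe⟩ := exists_seminorm he
  obtain ⟨n, hn⟩ := hf.small_act X hq
  refine ⟨Finset.range n, fun t ht => hqe _ ?_⟩
  have h1 : q (∑ b ∈ t, X.actP (f b) (y b)) ≤ ∑ b ∈ t, q (X.actP (f b) (y b)) :=
    Finset.le_sum_of_subadditive q (map_zero q).le (map_add_le_add q) _ _
  refine h1.trans_lt ?_
  rw [Finset.sum_eq_zero]
  · exact one_pos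
  · intro b hb
    refine hn b ?_ _
    by_contra h2
    push Not at h2
    exact Finset.disjoint_left.1 ht hb (Finset.mem_range.2 h2)

/-- The sum map. -/
noncomputable def Fam.sumL (hf : Fam f) (X : FMod A) : (ℕ → X.X) →L[ℂ] X.X where
  toFun y := ∑' i, X.actP (f i) (y i)
  map_add' y z := by
    have := X.fre.metr
    rw [← (hf.summable X y).tsum_add (hf.summable X z)]
    congr 1
    funext i
    exact X.actP_add _ _ _
  map_smul' r y := by
    have := X.fre.metr
    rw [RingHom.id_apply, ← (hf.summable X y).tsum_const_smul r]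
    congr 1
    funext i
    exact X.actP_smul _ _ _
  cont := by
    have := X.fre.metr
    let T : (ℕ → X.X) →+ X.X :=
      { toFun := fun y => ∑' i, X.actP (f i) (y i)
        map_zero' := by
          have h1 : (fun i => X.actP (f i) ((0 : ℕ → X.X) i)) = fun _ => 0 := by
            funext i
            exact X.actP_zero _
          rw [h1, tsum_zero]
        map_add' := by
          intro y z
          rw [← (hf.summable X y).tsum_add (hf.summable X z)]
          congr 1
          funext i
          exact X.actP_add _ _ _ }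
    refine continuous_of_continuousAt_zero T ?_
    rw [ContinuousAt, map_zero]
    intro U hU
    obtain ⟨q, hq, hqU⟩ := exists_seminorm hU
    obtain ⟨n, hn⟩ := hf.small_act X hq
    have h1 : Continuous fun y : ℕ → X.X => q (∑ i ∈ Finset.range n, X.actP (f i) (y i)) := by
      refine hq.comp (continuous_finsetSum _ fun i _ => ?_)
      exact X.continuous_actP.comp (by fun_prop : Continuous fun y : ℕ → X.X => (f i, y i))
    have h2 : {y : ℕ → X.X | q (∑ i ∈ Finset.range n, X.actP (f i) (y i)) < 1} ∈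
        𝓝 (0 : ℕ → X.X) := by
      refine (isOpen_lt h1 continuous_const).mem_nhds ?_
      simp [X.actP_zero]
    rw [Filter.mem_map]
    filter_upwards [h2] with y hy
    refine hqU _ (lt_of_le_of_lt ?_ hy)
    have h3 : Tendsto (fun s : Finset ℕ => q (∑ i ∈ s, X.actP (f i) (y i))) atTop
        (𝓝 (q (T y))) := (hq.tendsto _).comp (hf.summable X y).hasSum
    refine le_of_tendsto h3 ?_
    filter_upwards [eventually_ge_atTop (Finset.range n)] with s hs
    rw [← Finset.sum_sdiff hs]
    refine (map_add_le_add q _ _).trans ?_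
    have h4 : q (∑ b ∈ s \ Finset.range n, X.actP (f b) (y b)) = 0 := by
      refine le_antisymm ?_ (apply_nonneg _ _)
      refine (Finset.le_sum_of_subadditive q (map_zero q).le (map_add_le_add q) _ _).trans ?_
      rw [Finset.sum_eq_zero]
      intro b hb
      rw [Finset.mem_sdiff, Finset.mem_range, not_lt] at hb
      exact hn b hb.2 _
    rw [h4, zero_add]

theorem Fam.sumL_apply (hf : Fam f) (X : FMod A) (y : ℕ → X.X) :
    hf.sumL X y = ∑' i, X.actP (f i) (y i) := rfl

theorem Fam.sum_act (hf : Fam f) (X : FMod A) (x : X.X) : ∑' i, X.actP (f i) x = x := by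
  have := X.fre.metr
  have h1 := (hf.summable X fun _ => x).hasSum.tendsto_sum_nat
  have h2 : Tendsto (fun n => ∑ i ∈ Finset.range n, X.actP (f i) x) atTop
      (𝓝 (X.actP (1, 0) x)) := by
    have h3 : ∀ n, ∑ i ∈ Finset.range n, X.actP (f i) x =
        X.actP (∑ i ∈ Finset.range n, f i) x := by
      intro n
      induction n with
      | zero =>
        rw [Finset.sum_range_zero, Finset.sum_range_zero, X.actP_def]
        simp
      | succ n ih => rw [Finset.sum_range_succ, Finset.sum_range_succ, X.add_actP, ih]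
    simp_rw [h3]
    have h4 : Continuous fun z : ℂ × A => X.actP z x :=
      X.continuous_actP.comp (by fun_prop : Continuous fun z : ℂ × A => (z, x))
    exact (h4.tendsto _).comp hf.sum
  rw [X.one_actP] at h2
  exact tendsto_nhds_unique h1 h2

/-- The product of the cofree modules. -/
noncomputable def bigJ (hn : ∀ i, Normable (fixP (f i))) (X : FMod A) : FMod A :=
  piM (fun i => CofR (fixR (f i) (hn i)) X)
    (IsFrechet.pi (F := fun i => (CofR (fixR (f i) (hn i)) X).X))

/-- The embedding. -/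
noncomputable def bigE (f : ℕ → ℂ × A) (X : FMod A) :
    X.X →L[ℂ] (∀ i, fixP (f i) →L[ℂ] X.X) :=
  ContinuousLinearMap.pi fun i => etaV (f i) X

/-- The left inverse. -/
noncomputable def bigS (hf : Fam f) (X : FMod A) : (∀ i, fixP (f i) →L[ℂ] X.X) →L[ℂ] X.X :=
  (hf.sumL X).comp (ContinuousLinearMap.pi fun i =>
    ({ toFun := fun j => j i ⟨f i, hf.idem i⟩
       map_add' := fun _ _ => rfl
       map_smul' := fun _ _ => rfl
       cont := (continuous_eval_const _).comp (continuous_apply i) } :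
      (∀ i, fixP (f i) →L[ℂ] X.X) →L[ℂ] X.X))

theorem bigS_bigE (hf : Fam f) (X : FMod A) (x : X.X) : bigS hf X (bigE f X x) = x := by
  show ∑' i, X.actP (f i) (X.actP (f i) x) = x
  have h1 : (fun i => X.actP (f i) (X.actP (f i) x)) = fun i => X.actP (f i) x := by
    funext i
    rw [← X.actP_mulP, hf.idem]
  rw [h1]
  exact hf.sum_act X x

/-- The components. -/
def cmp (hn : ∀ i, Normable (fixP (f i))) (X : FMod A) (j : (bigJ hn X).X) (i : ℕ) :
    fixP (f i) →L[ℂ] X.X := (show ∀ i, fixP (f i) →L[ℂ] X.X from j) i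

theorem bigJ_act (hn : ∀ i, Normable (fixP (f i))) (X : FMod A) (a : A) (j : (bigJ hn X).X)
    (i : ℕ) (z : fixP (f i)) : cmp hn X ((bigJ hn X).act a j) i z =
      cmp hn X j i ⟨mulP z.1 (0, a), mulP_mem_fixP z.2 _⟩ := rfl

theorem bigJ_actP (hn : ∀ i, Normable (fixP (f i))) (X : FMod A) (w : ℂ × A)
    (j : (bigJ hn X).X) (i : ℕ) (z : fixP (f i)) :
    cmp hn X ((bigJ hn X).actP w j) i z =
      cmp hn X j i ⟨mulP z.1 w, mulP_mem_fixP z.2 _⟩ := by
  have h1 : cmp hn X ((bigJ hn X).actP w j) i z =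
      w.1 • cmp hn X j i z +
        cmp hn X j i ⟨mulP z.1 (0, w.2), mulP_mem_fixP z.2 _⟩ := rfl
  rw [h1, ← map_smul, ← map_add]
  congr 1
  refine Subtype.ext ?_
  show w.1 • z.1 + mulP z.1 (0, w.2) = mulP z.1 w
  rw [mulP_def, mulP_def]
  refine Prod.ext ?_ ?_
  · simp [mul_comm]
  · simp
    abel

theorem bigE_hom (hn : ∀ i, Normable (fixP (f i))) (X : FMod A) (a : A) (x : X.X) :
    bigE f X (X.act a x) = (bigJ hn X).act a (bigE f X x) := by
  funext i
  refine ContinuousLinearMap.ext fun z => ?_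
  show X.actP z.1 (X.act a x) = X.actP (mulP z.1 (0, a)) x
  rw [X.actP_mulP, ← act_eq_actP]

theorem injective_bigJ (hf : Fam f) (hn : ∀ i, Normable (fixP (f i))) (X : FMod A) :
    Injective (bigJ hn X) := by
  intro Y φ hφ ⟨ψ0, hψ0⟩
  let ψ0' : Y.X →L[ℂ] (∀ i, fixP (f i) →L[ℂ] X.X) := ψ0
  let θ : ℕ → (Y.X →L[ℂ] X.X) := fun i =>
    ({ toFun := fun j => j i ⟨f i, hf.idem i⟩
       map_add' := fun _ _ => rfl
       map_smul' := fun _ _ => rfl
       cont := (continuous_eval_const _).comp (continuous_apply i) } :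
      (∀ i, fixP (f i) →L[ℂ] X.X) →L[ℂ] X.X).comp ψ0'
  let ψ : Y.X →L[ℂ] (∀ i, fixP (f i) →L[ℂ] X.X) :=
    ContinuousLinearMap.pi fun i =>
      (ContinuousLinearMap.postcomp (fixP (f i)) (θ i)).comp (etaV (f i) Y)
  have hψ : ∀ (y : Y.X) (i : ℕ) (z : fixP (f i)), ψ y i z = θ i (Y.actP z.1 y) :=
    fun y i z => rfl
  have hφP : ∀ (w : ℂ × A) (j : (bigJ hn X).X), φ ((bigJ hn X).actP w j) = Y.actP w (φ j) := by
    intro w j
    rw [FMod.actP_def, FMod.actP_def, map_add, map_smul, hφ]
  refine ⟨ψ, fun a y => ?_, fun j => ?_⟩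
  · show ψ (Y.act a y) = (bigJ hn X).act a (ψ y)
    funext i
    refine ContinuousLinearMap.ext fun z => ?_
    rw [hψ]
    show θ i (Y.actP z.1 (Y.act a y)) = θ i (Y.actP (mulP z.1 (0, a)) y)
    rw [Y.actP_mulP, ← act_eq_actP]
  · show ψ (φ j) = j
    funext i
    refine ContinuousLinearMap.ext fun z => ?_
    rw [hψ, ← hφP]
    have h1 : θ i (φ ((bigJ hn X).actP z.1 j)) =
        cmp hn X ((bigJ hn X).actP z.1 j) i ⟨f i, hf.idem i⟩ := by
      show cmp hn X (ψ0 (φ ((bigJ hn X).actP z.1 j))) i ⟨f i, hf.idem i⟩ = _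
      rw [hψ0]
    rw [h1, bigJ_actP]
    show cmp hn X j i _ = cmp hn X j i z
    congr 1
    exact Subtype.ext z.2

/-- Enough injectives. -/
theorem Fam.hasInjectiveCoresolution (hf : Fam f) (hn : ∀ i, Normable (fixP (f i)))
    (X : FMod A) : HasInjectiveCoresolution X :=
  hasInj_of_emb (fun X => ⟨{
    J := bigJ hn X
    inj := injective_bigJ hf hn X
    e := bigE f X
    s := bigS hf X
    hom := bigE_hom hn X
    left := bigS_bigE hf X }⟩) X

end

end Pool.Agent.Helper20.FA
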